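import Mathlib
import Pool.Agent.T9h24.Xlc

/-!
The general theorem for filtrations: exact statements of two pieces.
-/

set_option autoImplicit false

open MvPolynomial Module

namespace Pool.Agent.T9h24.Ft

/-- **Piece (P1).** Two filtrations of a finite dimensional vector space have a common adapted basis.

Sketch (Corvaja and Zannier), by induction on the dimension `N`. `N = 0` is clear. Let `N ≥ 1`. Choose a
hyperplane `H` of `V` (`finrank H = N - 1`) which contains all `F e` which are different from `⊤` (they
form a chain; the largest of them is proper). Apply the induction to `H` and to the two filtrations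
`(F e).comap H.subtype`, `(G e).comap H.subtype`; this gives a basis of `H`. If some `G e` is not
contained in `H`, then as `V` is finite dimensional there is a smallest `G e1` which is not contained
in `H` (the set of the `G e` not contained in `H` has a minimal element which is the smallest as they
form a chain); choose `v ∈ G e1`, `v ∉ H`; otherwise choose any `v ∉ H`. Then the basis of `H` together
with `v` is adapted to both filtrations: if `F e ≠ ⊤` then `F e = F e ⊓ H`; if `G e ≤ H` then
`G e = G e ⊓ H`; if not, `v ∈ G e` and `G e = (G e ⊓ H) ⊔ span {v}`. -/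
def StTwo : Prop := ∀ (K V : Type) [Field K] [AddCommGroup V] [Module K V]
  [FiniteDimensional K V] (N : ℕ), finrank K V = N → ∀ F G : ℕ → Submodule K V,
  Antitone F → Antitone G → ∃ b : Module.Basis (Fin N) K V,
    (∀ e, F e = Submodule.span K (b '' {a | b a ∈ F e})) ∧
    ∀ e, G e = Submodule.span K (b '' {a | b a ∈ G e})

/-- **Piece (P2).** A form in the `e`-th power of the ideal of `g` (modulo `I`) is small near the zeros
of `g`.

Sketch. Induction over `P ∈ J ^ e ⊔ I` for polynomials which are not necessarily homogeneous, and for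
points with `‖y‖ = 1`: for every `P ∈ J ^ e ⊔ I` there is `A` such that for all `j` and all `y`
with `‖y‖ ≤ 1` and `eval y (map j Q) = 0` for `Q ∈ I`,
`‖eval y (map j P)‖ ≤ A * ‖fun t => eval y (map j (g t))‖ ^ e`
(`Ideal.span_pow_eq_map_prod` / `Submodule.span_induction`, `Submodule.mem_sup`,
`Pool.Agent.T9h24.embed_bound` for the images of the coefficients, uniform in `j`; the case
`e = 0` is `‖eval y (map j P)‖ ≤ A`). For homogeneous `P` and `g t` and `y ≠ 0` choose `l` with
`‖y l‖ = ‖y‖` and apply this to `(y l)⁻¹ • y`, whose norm is `1`. Finally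
`(‖fun t => eval y (map j (g t))‖ / ‖y‖ ^ a) ^ e ≤ A' * Real.exp (-(e * max 0 (log (…))))` as the
quotient is bounded (if the values are all `0` then the logarithm is `log (_ / 0) = 0` in Lean, and
the bound is trivial). -/
def StBd : Prop := ∀ (n T a d e : ℕ)
  (I : Ideal (MvPolynomial (Fin (n + 1)) (AlgebraicClosure ℚ)))
  (g : Fin T → MvPolynomial (Fin (n + 1)) (AlgebraicClosure ℚ)), (∀ t, (g t).IsHomogeneous a) →
  ∀ P : MvPolynomial (Fin (n + 1)) (AlgebraicClosure ℚ), P.IsHomogeneous d →
  P ∈ (Ideal.span (Set.range g)) ^ e ⊔ I →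
  ∀ (F : Type) [NormedField F] [CharZero F] [IsAlgClosed F], ∃ A : ℝ, 1 ≤ A ∧
    ∀ (j : AlgebraicClosure ℚ →+* F) (y : Fin (n + 1) → F), y ≠ 0 →
    (∀ Q ∈ I, eval y (map j Q) = 0) →
    ‖eval y (map j P)‖ ≤ A * ‖y‖ ^ d * Real.exp (-((e : ℝ) *
      max 0 (Real.log (‖y‖ ^ a / ‖fun t => eval y (map j (g t))‖))))

end Pool.Agent.T9h24.Ft
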