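import Mathlib
import Pool.Agent.T9h24.Ft.Spec

/-!
The general theorem for filtrations: the bound for the values, for products of ideals, with saturation.
-/

set_option autoImplicit false

open MvPolynomial Module

namespace Pool.Agent.T9h24.Ft

/-- the saturation of an ideal with respect to the irrelevant ideal -/
def sat {K : Type} [Field K] {n : ℕ} (J : Ideal (MvPolynomial (Fin (n + 1)) K)) :
    Ideal (MvPolynomial (Fin (n + 1)) K) where
  carrier := {P | ∃ M : ℕ, ∀ l, X l ^ M * P ∈ J}
  zero_mem' := ⟨0, fun l => by rw [mul_zero]; exact J.zero_mem⟩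
  add_mem' := by
    rintro P Q ⟨M, hM⟩ ⟨M', hM'⟩
    refine ⟨M + M', fun l => ?_⟩
    have h1 : (X l : MvPolynomial (Fin (n + 1)) K) ^ (M + M') * (P + Q) =
        X l ^ M' * (X l ^ M * P) + X l ^ M * (X l ^ M' * Q) := by
      rw [pow_add]
      ring
    rw [h1]
    exact J.add_mem (J.mul_mem_left _ (hM l)) (J.mul_mem_left _ (hM' l))
  smul_mem' := by
    rintro c P ⟨M, hM⟩
    refine ⟨M, fun l => ?_⟩
    rw [smul_eq_mul]
    have h1 : (X l : MvPolynomial (Fin (n + 1)) K) ^ M * (c * P) = c * (X l ^ M * P) := by ring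
    rw [h1]
    exact J.mul_mem_left _ (hM l)

theorem le_sat {K : Type} [Field K] {n : ℕ} (J : Ideal (MvPolynomial (Fin (n + 1)) K)) :
    J ≤ sat J := fun P hP => ⟨0, fun l => by rw [pow_zero, one_mul]; exact hP⟩

theorem sat_mono {K : Type} [Field K] {n : ℕ} {J J' : Ideal (MvPolynomial (Fin (n + 1)) K)}
    (h : J ≤ J') : sat J ≤ sat J' := by
  rintro P ⟨M, hM⟩
  exact ⟨M, fun l => h (hM l)⟩

/-- **Piece (P2), final form (this replaces `StBd`).** A form in the saturation of
`∏ J_i ^ e_i + I` is small near the zeros of the `g i`.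

Sketch. (a) Induction over `P ∈ (∏ i, J i ^ e i) ⊔ I` for polynomials which are not necessarily
homogeneous, and points with `‖y‖ ≤ 1`: for every such `P` there is `A` such that for all `j` and all
`y` with `‖y‖ ≤ 1` and `eval y (map j Q) = 0` for `Q ∈ I`,
`‖eval y (map j P)‖ ≤ A * ∏ i, ‖fun t => eval y (map j (g i t))‖ ^ e i` (`Submodule.mem_sup`;
`Submodule.mul_induction_on` / `Submodule.span_induction` or the following: the set of the `P` with
this property is an ideal which contains the generators; `Pool.Agent.T9h24.embed_bound` for the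
images of the coefficients, uniform in `j`). It is convenient to show: if all `P ∈ J` have the
property with the function `φ` of `(j, y)` and all `P ∈ J'` with `ψ`, then all `P ∈ J * J'` with `φ ψ`.
(b) For homogeneous `P` and `g i t` and `y ≠ 0` choose `l` with `‖y l‖ = ‖y‖` and apply (a) to
`X l ^ M * P` and `(y l)⁻¹ • y`, whose norm is `1` and whose coordinate `l` is `1`.
(c) `(‖fun t => eval y (map j (g i t))‖ / ‖y‖ ^ a i) ^ e i ≤ A' * Real.exp (-(e i * max 0 (log (…))))`
as the quotient is bounded (if all values are `0` then the logarithm is `log (_ / 0) = 0` in Lean and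
the bound is trivial). -/
def StBdP : Prop := ∀ (n q T d : ℕ) (a e : Fin q → ℕ)
  (I : Ideal (MvPolynomial (Fin (n + 1)) (AlgebraicClosure ℚ)))
  (g : Fin q → Fin T → MvPolynomial (Fin (n + 1)) (AlgebraicClosure ℚ)),
  (∀ i t, (g i t).IsHomogeneous (a i)) →
  ∀ P : MvPolynomial (Fin (n + 1)) (AlgebraicClosure ℚ), P.IsHomogeneous d →
  P ∈ sat ((∏ i, (Ideal.span (Set.range (g i))) ^ e i) ⊔ I) →
  ∀ (F : Type) [NormedField F] [CharZero F] [IsAlgClosed F], ∃ A : ℝ, 1 ≤ A ∧
    ∀ (j : AlgebraicClosure ℚ →+* F) (y : Fin (n + 1) → F), y ≠ 0 →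
    (∀ Q ∈ I, eval y (map j Q) = 0) →
    ‖eval y (map j P)‖ ≤ A * ‖y‖ ^ d * Real.exp (-∑ i, (e i : ℝ) *
      max 0 (Real.log (‖y‖ ^ a i / ‖fun t => eval y (map j (g i t))‖)))

end Pool.Agent.T9h24.Ft
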