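import Mathlib
import Pool.Agent.T9h24.Ls.Deg
import Pool.Agent.T9h24.Ft.Spec2

/-!
Filtrations of a vector space: the mixed determinants at one place.
-/

set_option autoImplicit false
set_option linter.unusedSectionVars false

open Finset MvPolynomial NumberField IsDedekindDomain Module

namespace Pool.Agent.T9h24.Ft

open Pool.Agent.T9h24

section weight

variable {K V : Type} [Field K] [AddCommGroup V] [Module K V] [FiniteDimensional K V]

/-- the sum of the codimensions of the first members of the filtration -/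
noncomputable def TF (N : ℕ) (Fl : ℕ → Submodule K V) (θ : ℕ) : ℕ :=
  ∑ t ∈ Finset.range θ, (N + 1 - finrank K (Fl (t + 1)))

open Classical in
/-- **The combinatorial bound** for filtrations. -/
theorem weight_filt {N q r dd : ℕ} (b : Basis (Fin (N + 1)) K V) {X : Type}
    (W : X → Matrix (Fin (N + 1)) (Fin (N + 1)) K) (hW : ∀ x, (W x).det ≠ 0)
    (comp : X → Finset (Fin q)) (α : X → Fin q → Fin (N + 1) → ℕ)
    (Fl : Fin q → ℕ → Submodule K V)
    (hα : ∀ x i, i ∈ comp x → ∀ t, t ≤ dd → ∀ a, t ≤ α x i a → ∑ k, W x a k • b k ∈ Fl i t)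
    (hc : ∀ x i, i ∈ comp x → ∀ t, t ≤ dd →
      finrank K (Fl i t) = (Finset.univ.filter fun a => t ≤ α x i a).card)
    {H : Type} [Fintype H] (θ : Fin q → Fin r → ℕ) (hθ : ∀ i u, θ i u ≤ dd) (f : H → X)
    (μ : H → Fin q → ℝ) (hμ : ∀ τ i, μ τ i ≠ 0 → i ∈ comp (f τ))
    (δ : Fin q → Fin r → ℝ) (As : Fin q → Fin r → Finset H) (hδ : ∀ i u, 0 ≤ δ i u)
    (hμδ : ∀ τ i, μ τ i = ∑ u, if τ ∈ As i u then δ i u else 0)
    (hδμ : ∀ i u, δ i u ≠ 0 → ∀ τ ∈ As i u, μ τ i ≠ 0)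
    (σ : Fin (N + 1) → H) (κ : Fin (N + 1) → Fin (N + 1))
    (hdet : (Matrix.of fun l j => (W (f (σ l)))⁻¹ j (κ l)).det ≠ 0) :
    ∑ i, ∑ u, δ i u * ((θ i u : ℝ) * cntA σ (As i u) - ((TF N (Fl i) (θ i u) : ℕ) : ℝ)) ≤
      ∑ l, ∑ i, (α (f (σ l)) i (κ l) : ℝ) * μ (σ l) i := by
  have h2 : ∑ l, ∑ i, (α (f (σ l)) i (κ l) : ℝ) * μ (σ l) i =
      ∑ i, ∑ u, δ i u * ((∑ l ∈ Finset.univ.filter (fun l => σ l ∈ As i u),
        α (f (σ l)) i (κ l) : ℕ) : ℝ) := by
    rw [Finset.sum_comm]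
    refine Finset.sum_congr rfl fun i _ => ?_
    have h3 : ∀ l ∈ (Finset.univ : Finset (Fin (N + 1))), (α (f (σ l)) i (κ l) : ℝ) * μ (σ l) i =
        ∑ u, if σ l ∈ As i u then δ i u * (α (f (σ l)) i (κ l) : ℝ) else 0 := by
      intro l _
      rw [hμδ, Finset.mul_sum]
      refine Finset.sum_congr rfl fun u _ => ?_
      split_ifs
      · ring
      · ring
    rw [Finset.sum_congr rfl h3, Finset.sum_comm]
    refine Finset.sum_congr rfl fun u _ => ?_
    push_cast
    rw [Finset.mul_sum, Finset.sum_filter]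
  rw [h2]
  refine Finset.sum_le_sum fun i _ => Finset.sum_le_sum fun u _ => ?_
  rcases eq_or_ne (δ i u) 0 with h0 | h0
  · rw [h0, zero_mul, zero_mul]
  refine mul_le_mul_of_nonneg_left ?_ (hδ i u)
  set J := Finset.univ.filter (fun l => σ l ∈ As i u) with hJ
  have hJc : ∀ l ∈ J, i ∈ comp (f (σ l)) := fun l hl =>
    hμ _ _ (hδμ i u h0 (σ l) (Finset.mem_filter.1 hl).2)
  -- the thresholds
  have hcount : ∀ t, t ≤ dd → (J.filter fun l => α (f (σ l)) i (κ l) < t).card ≤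
      N + 1 - finrank K (Fl i t) := by
    intro t ht
    rcases (J.filter fun l => α (f (σ l)) i (κ l) < t).eq_empty_or_nonempty with h3 | ⟨l0, hl0⟩
    · rw [h3]
      simp
    have h1 := count_main b W hW (fun x => α x i)
      ((J.filter fun l => α (f (σ l)) i (κ l) < t).image fun l => f (σ l)) t (Fl i t)
      (fun x hx a ha => by
        obtain ⟨l, hl, rfl⟩ := Finset.mem_image.1 hx
        exact hα _ i (hJc l (Finset.mem_filter.1 hl).1) t ht a ha)
      0 (fun x hx => by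
        obtain ⟨l, hl, rfl⟩ := Finset.mem_image.1 hx
        rw [hc _ i (hJc l (Finset.mem_filter.1 hl).1) t ht, add_zero])
      (fun l => f (σ l)) κ hdet
      (J.filter fun l => α (f (σ l)) i (κ l) < t) (fun l hl =>
        ⟨Finset.mem_image_of_mem _ hl, (Finset.mem_filter.1 hl).2⟩)
    omega
  have h3 : ∑ l ∈ J, (θ i u - α (f (σ l)) i (κ l)) ≤ TF N (Fl i) (θ i u) := by
    have e1 : ∑ l ∈ J, (θ i u - α (f (σ l)) i (κ l)) =
        ∑ t ∈ Finset.range (θ i u), (J.filter fun l => α (f (σ l)) i (κ l) < t + 1).card := by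
      simp only [tsub_eq_sum]
      rw [Finset.sum_comm]
      exact Finset.sum_congr rfl fun t _ => by rw [Finset.card_filter]
    rw [e1]
    refine Finset.sum_le_sum fun t ht => hcount (t + 1) ?_
    have := Finset.mem_range.1 ht
    have := hθ i u
    omega
  have h5 : θ i u * cntA σ (As i u) ≤ ∑ l ∈ J, α (f (σ l)) i (κ l) + TF N (Fl i) (θ i u) := by
    have h6 : θ i u * cntA σ (As i u) = ∑ _l ∈ J, θ i u := by
      rw [Finset.sum_const, smul_eq_mul, mul_comm]
      rfl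
    rw [h6]
    refine le_trans ?_ (Nat.add_le_add_left h3 _)
    rw [← Finset.sum_add_distrib]
    refine Finset.sum_le_sum fun l hl => ?_
    omega
  have h6 : ((θ i u * cntA σ (As i u) : ℕ) : ℝ) ≤
      ((∑ l ∈ J, α (f (σ l)) i (κ l) + TF N (Fl i) (θ i u) : ℕ) : ℝ) := by
    exact_mod_cast h5
  rw [Nat.cast_mul, Nat.cast_add (∑ l ∈ _, _)] at h6
  linarith

end weight

open Classical in
/-- **One place.** -/
theorem filt_place {F : Type} [NormedField F] [CharZero F] [IsAlgClosed F] {N q r dd : ℕ}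
    {V : Type} [AddCommGroup V] [Module (AlgebraicClosure ℚ) V]
    [FiniteDimensional (AlgebraicClosure ℚ) V] (b : Basis (Fin (N + 1)) (AlgebraicClosure ℚ) V)
    {X : Type} (G' : Polynomial ℤ) (hG' : G' ≠ 0)
    (W : X → Matrix (Fin (N + 1)) (Fin (N + 1)) (AlgebraicClosure ℚ))
    (hWd : ∀ x, (W x).det ≠ 0) (hWr : ∀ e a i, W e a i ∈ (mp (AlgebraicClosure ℚ) G').roots)
    (comp : X → Finset (Fin q)) (α : X → Fin q → Fin (N + 1) → ℕ)
    (Fl : Fin q → ℕ → Submodule (AlgebraicClosure ℚ) V)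
    (hα : ∀ x i, i ∈ comp x → ∀ t, t ≤ dd → ∀ a, t ≤ α x i a → ∑ k, W x a k • b k ∈ Fl i t)
    (hc : ∀ x i, i ∈ comp x → ∀ t, t ≤ dd →
      finrank (AlgebraicClosure ℚ) (Fl i t) = (Finset.univ.filter fun a => t ≤ α x i a).card)
    (θ : Fin q → Fin r → ℕ) (hθ : ∀ i u, θ i u ≤ dd)
    (A : ℝ) (hA : 1 ≤ A) : ∃ K0 : ℝ,
    ∀ (E : Type) [Field E] [NumberField E] (Y : Fin (N + 1) → 𝓞 E), Y ≠ 0 →
      ∀ (e : (E →+* F) → X) (j : AlgebraicClosure ℚ →+* F) (μ : (E →+* F) → Fin q → ℝ),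
      (∀ τ i, μ τ i ≠ 0 → i ∈ comp (e τ)) →
      (∀ τ a, ‖lf (fun i => j (W (e τ) a i)) (fun i => τ (Y i : E))‖ ≤
        A * ‖fun i => τ (Y i : E)‖ *
          Real.exp (-∑ i, (α (e τ) i a : ℝ) * μ τ i)) →
      ∀ (δ : Fin q → Fin r → ℝ) (As : Fin q → Fin r → Finset (E →+* F)),
      (∀ i u, 0 ≤ δ i u) → (∀ τ i, μ τ i = ∑ u, if τ ∈ As i u then δ i u else 0) →
      (∀ i u, δ i u ≠ 0 → ∀ τ ∈ As i u, μ τ i ≠ 0) →
      Mixed F G' Y (fun σ => ∑ i, ∑ u, δ i u * ((θ i u : ℝ) * cntA σ (As i u) -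
        ((TF N (Fl i) (θ i u) : ℕ) : ℝ)) - K0) := by
  set RF : Finset F := (mp F G').roots.toFinset with hRF
  obtain ⟨M0, hM1, hM0⟩ := exists_big (fun p : (Fin (N + 1) → Fin (N + 1) → Fin (N + 1) → RF) ×
    (Fin (N + 1) → Fin (N + 1)) => ‖(Matrix.of fun l i =>
      (Matrix.of fun a b => (p.1 l a b : F))⁻¹ i (p.2 l)).det‖)
  have hA0 : (0 : ℝ) < A := by linarith
  have hM00 : (0 : ℝ) < M0 := by exact_mod_cast hM1
  set KK : ℝ := ((N : ℝ) + 1) ^ (N + 1) * (A ^ (N + 1) * M0) with hKK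
  have hKK0 : 0 < KK := by
    rw [hKK]
    positivity
  refine ⟨Real.log KK, fun E _ _ Y hY e j μ hμ hval δ As hδ hμδ hδμ => ?_⟩
  intro σ ξ hξ
  have hℓ : ∀ τ : E →+* F, (fun i => τ (Y i : E)) ≠ 0 := by
    intro τ h0
    apply hY
    funext i
    have h1 : τ (Y i : E) = 0 := congrFun h0 i
    exact RingOfIntegers.ext (by simpa using h1)
  set Ξ : ℝ := ∑ i, ∑ u, δ i u * ((θ i u : ℝ) * cntA σ (As i u) -
        ((TF N (Fl i) (θ i u) : ℕ) : ℝ)) with hΞ
  have hr : ∀ τ a i, j (W (e τ) a i) ∈ (mp F G').roots := fun τ a i =>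
    map_root hG' (hWr _ _ _) _
  have hval2 : ∀ l a, ‖∑ i, (W (e (σ l))).map j a i * ξ l i‖ ≤ A *
      Real.exp (-∑ i, (α (e (σ l)) i a : ℝ) * μ (σ l) i) := by
    intro l a
    have h1 := hξ l (fun i => j (W (e (σ l)) a i)) fun i => hr _ _ _
    have h2 := h1.trans (hval (σ l) a)
    have h3 : 0 < ‖fun i => σ l (Y i : E)‖ := norm_pos_iff.2 (hℓ _)
    have h4 : A * ‖fun i => σ l (Y i : E)‖ *
        Real.exp (-∑ i, (α (e (σ l)) i a : ℝ) * μ (σ l) i) =
        (A * Real.exp (-∑ i, (α (e (σ l)) i a : ℝ) * μ (σ l) i)) *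
          ‖fun i => σ l (Y i : E)‖ := by
      ring
    rw [h4] at h2
    exact le_of_mul_le_mul_right h2 h3
  have hdet : ∀ x, ((W x).map j).det ≠ 0 := by
    intro x
    have h1 : ((W x).map j).det = j (W x).det := (RingHom.map_det _ _).symm
    rw [h1]
    exact (map_ne_zero _).2 (hWd _)
  have hinv : ∀ x, ((W x).map j)⁻¹ = ((W x)⁻¹).map j := by
    intro x
    apply Matrix.inv_eq_right_inv
    rw [← Matrix.map_mul, Matrix.mul_nonsing_inv _ (isUnit_iff_ne_zero.2 (hWd x)),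
      Matrix.map_one _ (map_zero j) (map_one j)]
  have hmain := multi_bound2 (fun τ : E →+* F => (W (e τ)).map j) (fun τ => hdet _) σ ξ M0
    (A ^ (N + 1) * Real.exp (-Ξ)) (by positivity) hM00.le (fun κ => by
      have h2 := hM0 (fun l a b => ⟨j (W (e (σ l)) a b),
        Multiset.mem_toFinset.2 (hr _ _ _)⟩, κ)
      exact h2)
    (fun κ hκ => by
      have h1 : ∏ l, ‖∑ i, (W (e (σ l))).map j (κ l) i * ξ l i‖ ≤ ∏ l, (A *
          Real.exp (-∑ i, (α (e (σ l)) i (κ l) : ℝ) * μ (σ l) i)) :=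
        Finset.prod_le_prod (fun l _ => norm_nonneg _) fun l _ => hval2 l (κ l)
      refine h1.trans ?_
      rw [Finset.prod_mul_distrib, Finset.prod_const, Finset.card_univ, Fintype.card_fin,
        ← Real.exp_sum, Finset.sum_neg_distrib]
      refine mul_le_mul_of_nonneg_left (Real.exp_le_exp.2 (neg_le_neg ?_)) (by positivity)
      refine weight_filt b W hWd comp α Fl hα hc θ hθ e μ hμ δ As hδ hμδ hδμ σ κ ?_
      intro h0
      apply hκ
      have h2 : (Matrix.of fun l i => ((W (e (σ l))).map j)⁻¹ i (κ l)) =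
          (Matrix.of fun l i => (W (e (σ l)))⁻¹ i (κ l)).map j := by
        ext l i
        rw [Matrix.of_apply, Matrix.map_apply, Matrix.of_apply, hinv, Matrix.map_apply]
      have h3 : ((Matrix.of fun l i => (W (e (σ l)))⁻¹ i (κ l)).map j).det =
          j (Matrix.of fun l i => (W (e (σ l)))⁻¹ i (κ l)).det := (RingHom.map_det _ _).symm
      rw [h2, h3, h0, map_zero])
  refine hmain.trans (le_of_eq ?_)
  have h1 : -(Ξ - Real.log KK) = -Ξ + Real.log KK := by ring
  show _ = Real.exp (-(Ξ - Real.log KK))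
  rw [h1, Real.exp_add, Real.exp_log hKK0, hKK]
  ring

/-! ### Adapted bases and orders -/

section order

variable {K V : Type} [Field K] [AddCommGroup V] [Module K V] [FiniteDimensional K V]

open Classical in
/-- the order of a vector for a filtration, up to `dd` -/
noncomputable def ordf (Fl : ℕ → Submodule K V) (dd : ℕ) (v : V) : ℕ :=
  ((Finset.range dd).filter fun t => v ∈ Fl (t + 1)).card

theorem le_ordf_iff {Fl : ℕ → Submodule K V} (hFl : Antitone Fl) (h0 : Fl 0 = ⊤) {dd t : ℕ}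
    (ht : t ≤ dd) (v : V) : t ≤ ordf Fl dd v ↔ v ∈ Fl t := by
  classical
  unfold ordf
  constructor
  · intro h
    by_contra hv
    have hsub : ((Finset.range dd).filter fun t => v ∈ Fl (t + 1)) ⊆ Finset.range (t - 1) := by
      intro s hs
      have hs' := (Finset.mem_filter.1 hs).2
      rw [Finset.mem_range]
      by_contra hcon
      apply hv
      exact hFl (by omega : t ≤ s + 1) hs'
    have h1 := Finset.card_le_card hsub
    rw [Finset.card_range] at h1
    rcases Nat.eq_zero_or_pos t with h2 | h2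
    · apply hv
      rw [h2, h0]
      exact Submodule.mem_top
    · omega
  · intro hv
    have hsub : Finset.range t ⊆ (Finset.range dd).filter fun t => v ∈ Fl (t + 1) := by
      intro s hs
      have hs' := Finset.mem_range.1 hs
      refine Finset.mem_filter.2 ⟨Finset.mem_range.2 (by omega), ?_⟩
      exact hFl (by omega : s + 1 ≤ t) hv
    have h1 := Finset.card_le_card hsub
    rwa [Finset.card_range] at h1

theorem mem_ordf {Fl : ℕ → Submodule K V} (hFl : Antitone Fl) (h0 : Fl 0 = ⊤) {dd : ℕ}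
    (v : V) : v ∈ Fl (ordf Fl dd v) := by
  classical
  refine (le_ordf_iff hFl h0 (dd := dd) ?_ v).1 le_rfl
  unfold ordf
  refine (Finset.card_filter_le _ _).trans ?_
  rw [Finset.card_range]

open Classical in
theorem finrank_ordf {N : ℕ} {Fl : ℕ → Submodule K V} (hFl : Antitone Fl) (h0 : Fl 0 = ⊤)
    (B : Basis (Fin N) K V) (hB : ∀ e, Fl e = Submodule.span K (B '' {a | B a ∈ Fl e})) {dd t : ℕ}
    (ht : t ≤ dd) : finrank K (Fl t) =
      (Finset.univ.filter fun a => t ≤ ordf Fl dd (B a)).card := by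
  have h1 := finrank_span_eq_card ((B.linearIndependent).comp
    (fun a : {a | B a ∈ Fl t} => (a : Fin N)) Subtype.val_injective)
  have h3 : Set.range (B ∘ fun a : {a | B a ∈ Fl t} => (a : Fin N)) = B '' {a | B a ∈ Fl t} := by
    rw [Set.range_comp, Subtype.range_coe]
  rw [h3, ← hB t] at h1
  rw [h1]
  exact Fintype.card_of_subtype _ fun a => by
    simp [le_ordf_iff hFl h0 ht]

end order

end Pool.Agent.T9h24.Ft
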