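import Mathlib
import Pool.Agent.T9h24.Ft.Plc

/-!
The general theorem for filtrations, integral coordinates.
-/

set_option autoImplicit false
set_option linter.unusedSectionVars false

open Finset MvPolynomial NumberField IsDedekindDomain Module

namespace Pool.Agent.T9h24.Ft

open Pool.Agent.T9h24
open Pool.Agent.TH875 (VM VM_finite)

/-- the bound for the values of a form in the saturation of a product of powers of ideals -/
def StBdC : Prop := ∀ (n q T d : ℕ) (a e : Fin q → ℕ)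
  (I : Ideal (MvPolynomial (Fin (n + 1)) (AlgebraicClosure ℚ)))
  (g : Fin q → Fin T → MvPolynomial (Fin (n + 1)) (AlgebraicClosure ℚ)),
  (∀ i t, (g i t).IsHomogeneous (a i)) →
  ∀ P : MvPolynomial (Fin (n + 1)) (AlgebraicClosure ℚ), P.IsHomogeneous d →
  P ∈ sat ((∏ i, (Ideal.span (Set.range (g i))) ^ e i) ⊔ I) →
  ∀ (F : Type) [NormedField F] [CharZero F] [IsAlgClosed F], ∃ A : ℝ, 1 ≤ A ∧
    ∀ (j : AlgebraicClosure ℚ →+* F) (y : Fin (n + 1) → F), y ≠ 0 →
    (∀ c : F, ∀ Q ∈ I, eval (c • y) (map j Q) = 0) →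
    ‖eval y (map j P)‖ ≤ A * ‖y‖ ^ d * Real.exp (-∑ i, (e i : ℝ) *
      max 0 (Real.log (‖y‖ ^ a i / ‖fun t => eval y (map j (g i t))‖)))

section defs

variable {n T : ℕ}

/-- the classes of the forms of degree `d` which vanish to the order `e` along the subscheme -/
noncomputable def Fil (I : Ideal (MvPolynomial (Fin (n + 1)) (AlgebraicClosure ℚ)))
    (g : Fin T → MvPolynomial (Fin (n + 1)) (AlgebraicClosure ℚ)) (d e : ℕ) :
    Submodule (AlgebraicClosure ℚ) (MvPolynomial (Fin (n + 1)) (AlgebraicClosure ℚ) ⧸ I) :=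
  (homogeneousSubmodule (Fin (n + 1)) (AlgebraicClosure ℚ) d ⊓
    (sat ((Ideal.span (Set.range g)) ^ e ⊔ I)).restrictScalars (AlgebraicClosure ℚ)).map
    (Ideal.Quotient.mkₐ (AlgebraicClosure ℚ) I).toLinearMap

/-- the subschemes intersect properly -/
def Indep (I : Ideal (MvPolynomial (Fin (n + 1)) (AlgebraicClosure ℚ)))
    (g g' : Fin T → MvPolynomial (Fin (n + 1)) (AlgebraicClosure ℚ)) : Prop :=
  ∀ (e e' : ℕ) (P : MvPolynomial (Fin (n + 1)) (AlgebraicClosure ℚ)),
    P ∈ sat ((Ideal.span (Set.range g)) ^ e ⊔ I) →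
    P ∈ sat ((Ideal.span (Set.range g')) ^ e' ⊔ I) →
    P ∈ sat ((Ideal.span (Set.range g)) ^ e * (Ideal.span (Set.range g')) ^ e' ⊔ I)

/-- the profile: the Legendre transform of the sum of the codimensions -/
noncomputable def pf (I : Ideal (MvPolynomial (Fin (n + 1)) (AlgebraicClosure ℚ)))
    (g : Fin T → MvPolynomial (Fin (n + 1)) (AlgebraicClosure ℚ)) (d : ℕ) (u : ℝ) : ℝ :=
  ⨆ θ : Fin (d + 1), ((θ : ℕ) * u - ∑ t ∈ Finset.range θ,
    (1 - (finrank (AlgebraicClosure ℚ) (Fil I g d (t + 1)) : ℝ) /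
      finrank (AlgebraicClosure ℚ) (VM I d)))

/-- the local height -/
noncomputable def lg {F : Type} [NormedField F] (a : ℕ)
    (g : Fin T → MvPolynomial (Fin (n + 1)) (AlgebraicClosure ℚ)) (j : AlgebraicClosure ℚ →+* F)
    (y : Fin (n + 1) → F) : ℝ :=
  max 0 (Real.log (‖y‖ ^ a / ‖fun t => eval y (map j (g t))‖))

theorem lg_nonneg {F : Type} [NormedField F] (a : ℕ)
    (g : Fin T → MvPolynomial (Fin (n + 1)) (AlgebraicClosure ℚ)) (j : AlgebraicClosure ℚ →+* F)
    (y : Fin (n + 1) → F) : 0 ≤ lg a g j y := le_max_left _ _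

end defs

theorem eval_smul_form {F : Type} [Field F] {n d : ℕ} {P : MvPolynomial (Fin (n + 1)) F}
    (hP : P.IsHomogeneous d) (c : F) (y : Fin (n + 1) → F) :
    eval (c • y) P = c ^ d * eval y P := by
  rw [eval_eq', eval_eq', Finset.mul_sum]
  refine Finset.sum_congr rfl fun a ha => ?_
  have h1 : a.degree = d := by
    by_contra h
    exact mem_support_iff.1 ha (hP.coeff_eq_zero h)
  simp only [Pi.smul_apply, smul_eq_mul, mul_pow]
  rw [Finset.prod_mul_distrib, Finset.prod_pow_eq_pow_sum, ← Finsupp.degree_eq_sum, h1]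
  ring

section fil

variable {n T : ℕ} {I : Ideal (MvPolynomial (Fin (n + 1)) (AlgebraicClosure ℚ))}
  {g : Fin T → MvPolynomial (Fin (n + 1)) (AlgebraicClosure ℚ)} {d : ℕ}

theorem Fil_le (e : ℕ) : Fil I g d e ≤ VM I d :=
  Submodule.map_mono inf_le_left

/-- the filtration of the space of the forms -/
noncomputable def FV (I : Ideal (MvPolynomial (Fin (n + 1)) (AlgebraicClosure ℚ)))
    (g : Fin T → MvPolynomial (Fin (n + 1)) (AlgebraicClosure ℚ)) (d e : ℕ) :
    Submodule (AlgebraicClosure ℚ) (VM I d) := (Fil I g d e).comap (VM I d).subtype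

theorem FV_finrank (e : ℕ) :
    finrank (AlgebraicClosure ℚ) (FV I g d e) = finrank (AlgebraicClosure ℚ) (Fil I g d e) :=
  (Submodule.submoduleOfEquivOfLe (Fil_le e)).finrank_eq

theorem FV_zero : FV I g d 0 = ⊤ := by
  rw [eq_top_iff]
  rintro ⟨v, hv⟩ -
  obtain ⟨P, hP, rfl⟩ := hv
  refine ⟨P, ⟨hP, ?_⟩, rfl⟩
  rw [pow_zero, Ideal.one_eq_top, top_sup_eq]
  exact le_sat _ Submodule.mem_top

theorem FV_antitone : Antitone (FV I g d) := by
  intro e e' h
  refine Submodule.comap_mono (Submodule.map_mono (inf_le_inf le_rfl ?_))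
  intro P hP
  exact sat_mono (sup_le_sup (Ideal.pow_le_pow_right h) le_rfl) hP

theorem mem_FV {N e : ℕ} (c : Fin (N + 1) → (Fin (n + 1) →₀ ℕ))
    (b : Basis (Fin (N + 1)) (AlgebraicClosure ℚ) (VM I d))
    (hb : ∀ i, ((b i : VM I d) : MvPolynomial (Fin (n + 1)) (AlgebraicClosure ℚ) ⧸ I) =
        Ideal.Quotient.mkₐ (AlgebraicClosure ℚ) I (monomial (c i) 1))
    (w : Fin (N + 1) → AlgebraicClosure ℚ) (h : ∑ k, w k • b k ∈ FV I g d e) :
    Pc c w ∈ sat ((Ideal.span (Set.range g)) ^ e ⊔ I) := by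
  obtain ⟨P, ⟨-, hP⟩, hPv⟩ := h
  have h1 : Ideal.Quotient.mkₐ (AlgebraicClosure ℚ) I (Pc c w) =
      ((∑ k, w k • b k : VM I d) : MvPolynomial (Fin (n + 1)) (AlgebraicClosure ℚ) ⧸ I) := by
    unfold Pc
    rw [map_sum]
    simp only [AddSubmonoidClass.coe_finsetSum, Submodule.coe_smul, hb]
    refine Finset.sum_congr rfl fun i _ => ?_
    rw [← MvPolynomial.smul_eq_C_mul, map_smul]
  have h2 : Pc c w - P ∈ I := by
    rw [← Ideal.Quotient.eq_zero_iff_mem]
    have h3 : Ideal.Quotient.mkₐ (AlgebraicClosure ℚ) I (Pc c w - P) = 0 := by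
      rw [map_sub, h1, sub_eq_zero]
      exact hPv.symm
    exact h3
  have h3 : Pc c w - P ∈ sat ((Ideal.span (Set.range g)) ^ e ⊔ I) :=
    le_sat _ (Submodule.mem_sup_right h2)
  have h4 := Ideal.add_mem _ h3 (show P ∈ sat ((Ideal.span (Set.range g)) ^ e ⊔ I) from hP)
  rwa [sub_add_cancel] at h4

theorem pf_bdd (u : ℝ) : BddAbove (Set.range fun θ : Fin (d + 1) => ((θ : ℕ) * u -
    ∑ t ∈ Finset.range θ, (1 - (finrank (AlgebraicClosure ℚ) (Fil I g d (t + 1)) : ℝ) /
      finrank (AlgebraicClosure ℚ) (VM I d)))) := (Set.finite_range _).bddAbove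

theorem pf_term (t : ℕ) : 0 ≤ 1 - (finrank (AlgebraicClosure ℚ) (Fil I g d t) : ℝ) /
      finrank (AlgebraicClosure ℚ) (VM I d) := by
  have hfin := VM_finite I d
  have h1 : (finrank (AlgebraicClosure ℚ) (Fil I g d t) : ℝ) ≤
      finrank (AlgebraicClosure ℚ) (VM I d) := by
    exact_mod_cast Submodule.finrank_mono (Fil_le t)
  rw [sub_nonneg]
  exact div_le_one_of_le₀ h1 (Nat.cast_nonneg _)

theorem pf_zero : pf I g d 0 = 0 := by
  refine le_antisymm (ciSup_le fun θ => ?_) ?_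
  · rw [mul_zero, zero_sub, neg_nonpos]
    exact Finset.sum_nonneg fun t _ => pf_term (t + 1)
  · have h1 := le_ciSup (pf_bdd (I := I) (g := g) (d := d) 0) 0
    refine le_trans (le_of_eq ?_) h1
    simp

theorem pf_mono {u v : ℝ} (h : u ≤ v) : pf I g d u ≤ pf I g d v := by
  refine ciSup_mono (pf_bdd v) fun θ => ?_
  have := mul_le_mul_of_nonneg_left h (Nat.cast_nonneg (α := ℝ) (θ : ℕ))
  linarith

theorem pf_mid (u v : ℝ) : pf I g d ((u + v) / 2) ≤ (pf I g d u + pf I g d v) / 2 := by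
  refine ciSup_le fun θ => ?_
  have h1 := le_ciSup (pf_bdd (I := I) (g := g) (d := d) u) θ
  have h2 := le_ciSup (pf_bdd (I := I) (g := g) (d := d) v) θ
  change _ ≤ (pf I g d u) at h1
  change _ ≤ (pf I g d v) at h2
  have h3 : ((θ : ℕ) : ℝ) * ((u + v) / 2) = ((θ : ℕ) * u + (θ : ℕ) * v) / 2 := by ring
  rw [h3]
  linarith

end fil

section bases

variable {n T q : ℕ} {I : Ideal (MvPolynomial (Fin (n + 1)) (AlgebraicClosure ℚ))}
  {g : Fin q → Fin T → MvPolynomial (Fin (n + 1)) (AlgebraicClosure ℚ)} {d : ℕ}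

/-- the matrix of a basis -/
theorem exists_matrix {V : Type} [AddCommGroup V] [Module (AlgebraicClosure ℚ) V] {N : ℕ}
    (b B : Basis (Fin (N + 1)) (AlgebraicClosure ℚ) V) :
    ∃ W : Matrix (Fin (N + 1)) (Fin (N + 1)) (AlgebraicClosure ℚ), W.det ≠ 0 ∧
      ∀ a, ∑ k, W a k • b k = B a := by
  refine ⟨Matrix.of fun a k => b.repr (B a) k, ?_, fun a => b.sum_repr (B a)⟩
  have h1 : LinearIndependent (AlgebraicClosure ℚ)
      (Matrix.of fun a k => b.repr (B a) k : Matrix _ _ _).row := by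
    have h2 := B.linearIndependent.map' b.equivFun.toLinearMap
      (LinearMap.ker_eq_bot.2 b.equivFun.injective)
    exact h2
  exact isUnit_iff_ne_zero.1 ((Matrix.isUnit_iff_isUnit_det _).1
    (Matrix.linearIndependent_rows_iff_isUnit.1 h1))

/-- the pairs of equal or properly intersecting subschemes -/
def Good (I : Ideal (MvPolynomial (Fin (n + 1)) (AlgebraicClosure ℚ)))
    (g : Fin q → Fin T → MvPolynomial (Fin (n + 1)) (AlgebraicClosure ℚ))
    (p : Fin q × Fin q) : Prop := p.1 = p.2 ∨ Indep I (g p.1) (g p.2)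

open Classical in
/-- the values of the adapted basis -/
theorem pair_bound (hP2 : StBdC) {N : ℕ} (a : Fin q → ℕ) (hg : ∀ i t, (g i t).IsHomogeneous (a i))
    (c : Fin (N + 1) → (Fin (n + 1) →₀ ℕ)) (hc : ∀ i, (c i).degree = d)
    (b : Basis (Fin (N + 1)) (AlgebraicClosure ℚ) (VM I d))
    (hb : ∀ i, ((b i : VM I d) : MvPolynomial (Fin (n + 1)) (AlgebraicClosure ℚ) ⧸ I) =
        Ideal.Quotient.mkₐ (AlgebraicClosure ℚ) I (monomial (c i) 1))
    (p : Fin q × Fin q) (hp : Good I g p) (w : Fin (N + 1) → AlgebraicClosure ℚ)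
    (o : Fin q → ℕ) (ho : ∀ i, i = p.1 ∨ i = p.2 → ∑ k, w k • b k ∈ FV I (g i) d (o i))
    (F : Type) [NormedField F] [CharZero F] [IsAlgClosed F] : ∃ A : ℝ, 1 ≤ A ∧
      ∀ (j : AlgebraicClosure ℚ →+* F) (y : Fin (n + 1) → F), y ≠ 0 →
        (∀ c : F, ∀ Q ∈ I, eval (c • y) (map j Q) = 0) →
        ‖lf (fun i => j (w i)) (monP c y)‖ ≤ A * ‖monP c y‖ *
          Real.exp (-∑ i, (o i : ℝ) * if i = p.1 ∨ i = p.2 then lg (a i) (g i) j y else 0) := by
  set e : Fin q → ℕ := fun i => if i = p.1 ∨ i = p.2 then o i else 0 with he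
  have he1 : e p.1 = o p.1 := if_pos (Or.inl rfl)
  have he2 : e p.2 = o p.2 := if_pos (Or.inr rfl)
  have he0 : ∀ i, i ≠ p.1 → i ≠ p.2 → e i = 0 := fun i h3 h4 => if_neg (fun h5 => by
    rcases h5 with h5 | h5
    · exact h3 h5
    · exact h4 h5)
  have h1 := mem_FV c b hb w (ho p.1 (Or.inl rfl))
  have h2 := mem_FV c b hb w (ho p.2 (Or.inr rfl))
  have hprod : Pc c w ∈ sat ((∏ i, (Ideal.span (Set.range (g i))) ^ e i) ⊔ I) := by
    by_cases hpp : p.1 = p.2
    · have h3 : ∏ i, (Ideal.span (Set.range (g i))) ^ e i =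
          (Ideal.span (Set.range (g p.1))) ^ o p.1 := by
        rw [Finset.prod_eq_single p.1]
        · rw [he1]
        · intro i _ hi
          rw [he0 i hi (by rwa [← hpp]), pow_zero]
        · intro h
          exact absurd (Finset.mem_univ _) h
      rw [h3]
      exact h1
    · have h3 : ∏ i, (Ideal.span (Set.range (g i))) ^ e i =
          (Ideal.span (Set.range (g p.1))) ^ o p.1 *
            (Ideal.span (Set.range (g p.2))) ^ o p.2 := by
        rw [Finset.prod_eq_mul p.1 p.2 hpp]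
        · rw [he1, he2]
        · intro i _ hi
          rw [he0 i hi.1 hi.2, pow_zero]
        · intro h
          exact absurd (Finset.mem_univ _) h
        · intro h
          exact absurd (Finset.mem_univ _) h
      rw [h3]
      rcases hp with h4 | h4
      · exact absurd h4 hpp
      · exact h4 _ _ _ h1 h2
  obtain ⟨A, hA1, hA⟩ := hP2 n q T d a e I g hg (Pc c w) (Pc_hom c hc w) hprod F
  obtain ⟨A2, hA2, hlow⟩ := monP_lower (F := F) I c b hb
  refine ⟨A * A2, one_le_mul_of_one_le_of_one_le hA1 hA2, fun j y hy hI => ?_⟩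
  have h3 : lf (fun i => j (w i)) (monP c y) = eval y (map j (Pc c w)) := (eval_Pc c w j y).symm
  rw [h3]
  refine (hA j y hy hI).trans ?_
  have h4 : ∑ i, (e i : ℝ) * max 0 (Real.log (‖y‖ ^ a i / ‖fun t => eval y (map j (g i t))‖)) =
      ∑ i, (o i : ℝ) * if i = p.1 ∨ i = p.2 then lg (a i) (g i) j y else 0 := by
    refine Finset.sum_congr rfl fun i _ => ?_
    simp only [he]
    split_ifs
    · rfl
    · rw [Nat.cast_zero, zero_mul, mul_zero]
  rw [h4]
  refine mul_le_mul_of_nonneg_right ?_ (Real.exp_pos _).le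
  rw [mul_assoc]
  exact mul_le_mul_of_nonneg_left (hlow j y fun P hP => by
    have h5 := hI 1 P hP
    rwa [one_smul] at h5) (by linarith)

end bases

/-- **The bases** for two filtrations. -/
theorem two_bases (hP1 : StTwo) {K V : Type} [Field K] [AddCommGroup V] [Module K V]
    [FiniteDimensional K V] {N : ℕ} (b : Basis (Fin (N + 1)) K V) (F F' : ℕ → Submodule K V)
    (hF : Antitone F) (hF' : Antitone F') (h0 : F 0 = ⊤) (h0' : F' 0 = ⊤) (d : ℕ) :
    ∃ (W : Matrix (Fin (N + 1)) (Fin (N + 1)) K), W.det ≠ 0 ∧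
      ∀ H : ℕ → Submodule K V, H = F ∨ H = F' →
      (∀ a, ∑ k, W a k • b k ∈ H (ordf H d (∑ k, W a k • b k))) ∧
      (∀ t, t ≤ d → ∀ a,
        t ≤ ordf H d (∑ k, W a k • b k) → ∑ k, W a k • b k ∈ H t) ∧
      ∀ t, t ≤ d → finrank K (H t) =
        (Finset.univ.filter fun a => t ≤ ordf H d (∑ k, W a k • b k)).card := by
  classical
  have hN : finrank K V = N + 1 := by
    rw [finrank_eq_card_basis b, Fintype.card_fin]
  obtain ⟨B, hB1, hB2⟩ := hP1 K V (N + 1) hN F F' hF hF'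
  have hW : ∀ a, ∑ k, b.repr (B a) k • b k = B a := fun a => b.sum_repr (B a)
  have hdet : (Matrix.of fun a k => b.repr (B a) k : Matrix (Fin (N + 1)) (Fin (N + 1)) K).det
      ≠ 0 := by
    have h1 : LinearIndependent K
        (Matrix.of fun a k => b.repr (B a) k : Matrix (Fin (N + 1)) (Fin (N + 1)) K).row := by
      have h2 := B.linearIndependent.map' b.equivFun.toLinearMap
        (LinearMap.ker_eq_bot.2 b.equivFun.injective)
      exact h2
    exact isUnit_iff_ne_zero.1 ((Matrix.isUnit_iff_isUnit_det _).1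
      (Matrix.linearIndependent_rows_iff_isUnit.1 h1))
  refine ⟨Matrix.of fun a k => b.repr (B a) k, hdet, fun H hH => ?_⟩
  have hHa : Antitone H := by
    rcases hH with h | h
    · rw [h]; exact hF
    · rw [h]; exact hF'
  have hH0 : H 0 = ⊤ := by
    rcases hH with h | h
    · rw [h]; exact h0
    · rw [h]; exact h0'
  have hHB : ∀ e, H e = Submodule.span K (B '' {a | B a ∈ H e}) := by
    rcases hH with h | h
    · rw [h]; exact hB1
    · rw [h]; exact hB2
  simp only [Matrix.of_apply, hW]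
  exact ⟨fun a => mem_ordf hHa hH0 _, fun t ht a h => (le_ordf_iff hHa hH0 ht _).1 h,
    fun t ht => finrank_ordf hHa hH0 B hHB ht⟩

section bases2

variable {n T q : ℕ} {I : Ideal (MvPolynomial (Fin (n + 1)) (AlgebraicClosure ℚ))}
  {g : Fin q → Fin T → MvPolynomial (Fin (n + 1)) (AlgebraicClosure ℚ)} {d : ℕ}

/-- the bases for the good pairs -/
theorem exists_bases (hP1 : StTwo) {N : ℕ}
    (b : Basis (Fin (N + 1)) (AlgebraicClosure ℚ) (VM I d)) (p : Fin q × Fin q) :
    ∃ (W : Matrix (Fin (N + 1)) (Fin (N + 1)) (AlgebraicClosure ℚ)), W.det ≠ 0 ∧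
      (∀ i, i = p.1 ∨ i = p.2 → ∀ a, ∑ k, W a k • b k ∈
        FV I (g i) d (ordf (FV I (g i) d) d (∑ k, W a k • b k))) ∧
      (∀ i, i = p.1 ∨ i = p.2 → ∀ t, t ≤ d → ∀ a,
        t ≤ ordf (FV I (g i) d) d (∑ k, W a k • b k) → ∑ k, W a k • b k ∈ FV I (g i) d t) ∧
      ∀ i, i = p.1 ∨ i = p.2 → ∀ t, t ≤ d → finrank (AlgebraicClosure ℚ) (FV I (g i) d t) =
        (Finset.univ.filter fun a => t ≤ ordf (FV I (g i) d) d (∑ k, W a k • b k)).card := by
  have hfin := VM_finite I d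
  obtain ⟨W, hWd, hW⟩ := two_bases hP1 b (FV I (g p.1) d) (FV I (g p.2) d) FV_antitone
    FV_antitone FV_zero FV_zero d
  have hor : ∀ i, i = p.1 ∨ i = p.2 →
      (FV I (g i) d = FV I (g p.1) d ∨ FV I (g i) d = FV I (g p.2) d) := by
    rintro i (h | h)
    · left
      rw [h]
    · right
      rw [h]
  exact ⟨W, hWd, fun i hi => (hW _ (hor i hi)).1, fun i hi => (hW _ (hor i hi)).2.1,
    fun i hi => (hW _ (hor i hi)).2.2⟩

end bases2

end Pool.Agent.T9h24.Ft
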