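import Mathlib
import Pool.Agent.T9h24.Ft.Fil

/-!
Adapted sets of subschemes.
-/

set_option autoImplicit false
set_option linter.unusedSectionVars false

open Finset MvPolynomial NumberField IsDedekindDomain Module

namespace Pool.Agent.T9h24.Ft

open Pool.Agent.T9h24
open Pool.Agent.TH875 (VM VM_finite)

/-- bases adapted to several filtrations -/
theorem abs_bases {K V : Type} [Field K] [AddCommGroup V] [Module K V] [FiniteDimensional K V]
    {N q : ℕ} (b : Basis (Fin (N + 1)) K V) (A : Finset (Fin q))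
    (H : Fin q → ℕ → Submodule K V) (hH : ∀ i, Antitone (H i)) (h0 : ∀ i, H i 0 = ⊤)
    (C : (Fin q → ℕ) → Submodule K V) (d : ℕ) {M : ℕ} (B0 : Basis (Fin M) K V)
    (hB1 : ∀ i ∈ A, ∀ e, H i e = Submodule.span K (B0 '' {b | B0 b ∈ H i e}))
    (hB2 : ∀ b, ∀ e : Fin q → ℕ, (∀ i ∈ A, B0 b ∈ H i (e i)) → B0 b ∈ C e) :
    ∃ (W : Matrix (Fin (N + 1)) (Fin (N + 1)) K), W.det ≠ 0 ∧
      (∀ a, ∑ k, W a k • b k ∈ C fun i => ordf (H i) d (∑ k, W a k • b k)) ∧
      (∀ i ∈ A, ∀ t, t ≤ d → ∀ a,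
        t ≤ ordf (H i) d (∑ k, W a k • b k) → ∑ k, W a k • b k ∈ H i t) ∧
      ∀ i ∈ A, ∀ t, t ≤ d → finrank K (H i t) =
        (Finset.univ.filter fun a => t ≤ ordf (H i) d (∑ k, W a k • b k)).card := by
  classical
  have hM : M = N + 1 := by
    have h1 := finrank_eq_card_basis B0
    have h2 := finrank_eq_card_basis b
    rw [Fintype.card_fin] at h1 h2
    omega
  subst hM
  have hW : ∀ a, ∑ k, b.repr (B0 a) k • b k = B0 a := fun a => b.sum_repr (B0 a)
  have hdet : (Matrix.of fun a k => b.repr (B0 a) k : Matrix (Fin (N + 1)) (Fin (N + 1)) K).det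
      ≠ 0 := by
    have h1 : LinearIndependent K
        (Matrix.of fun a k => b.repr (B0 a) k : Matrix (Fin (N + 1)) (Fin (N + 1)) K).row := by
      have h2 := B0.linearIndependent.map' b.equivFun.toLinearMap
        (LinearMap.ker_eq_bot.2 b.equivFun.injective)
      exact h2
    exact isUnit_iff_ne_zero.1 ((Matrix.isUnit_iff_isUnit_det _).1
      (Matrix.linearIndependent_rows_iff_isUnit.1 h1))
  refine ⟨Matrix.of fun a k => b.repr (B0 a) k, hdet, ?_⟩
  simp only [Matrix.of_apply, hW]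
  exact ⟨fun a => hB2 a _ fun i _ => mem_ordf (hH i) (h0 i) _,
    fun i _ t ht a h => (le_ordf_iff (hH i) (h0 i) ht _).1 h,
    fun i hi t ht => finrank_ordf (hH i) (h0 i) B0 (hB1 i hi) ht⟩

section adapted

variable {n T q : ℕ}

/-- the classes of the forms of degree `d` in the saturation of `J + I` -/
noncomputable def Cls (I : Ideal (MvPolynomial (Fin (n + 1)) (AlgebraicClosure ℚ))) (d : ℕ)
    (J : Ideal (MvPolynomial (Fin (n + 1)) (AlgebraicClosure ℚ))) :
    Submodule (AlgebraicClosure ℚ) (MvPolynomial (Fin (n + 1)) (AlgebraicClosure ℚ) ⧸ I) :=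
  (homogeneousSubmodule (Fin (n + 1)) (AlgebraicClosure ℚ) d ⊓
    (sat (J ⊔ I)).restrictScalars (AlgebraicClosure ℚ)).map
    (Ideal.Quotient.mkₐ (AlgebraicClosure ℚ) I).toLinearMap

/-- the same as a subspace of the space of all classes of forms of degree `d` -/
noncomputable def CV (I : Ideal (MvPolynomial (Fin (n + 1)) (AlgebraicClosure ℚ))) (d : ℕ)
    (J : Ideal (MvPolynomial (Fin (n + 1)) (AlgebraicClosure ℚ))) :
    Submodule (AlgebraicClosure ℚ) (VM I d) := (Cls I d J).comap (VM I d).subtype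

/-- the set of subschemes has an adapted basis in degree `d` -/
def Adp (I : Ideal (MvPolynomial (Fin (n + 1)) (AlgebraicClosure ℚ)))
    (g : Fin q → Fin T → MvPolynomial (Fin (n + 1)) (AlgebraicClosure ℚ)) (d : ℕ)
    (A : Finset (Fin q)) : Prop :=
  ∃ (M : ℕ) (B : Basis (Fin M) (AlgebraicClosure ℚ) (VM I d)),
    (∀ i ∈ A, ∀ e, FV I (g i) d e =
      Submodule.span (AlgebraicClosure ℚ) (B '' {b | B b ∈ FV I (g i) d e})) ∧
    ∀ b, ∀ e : Fin q → ℕ, (∀ i ∈ A, B b ∈ FV I (g i) d (e i)) →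
      B b ∈ CV I d (∏ i ∈ A, (Ideal.span (Set.range (g i))) ^ e i)

variable {I : Ideal (MvPolynomial (Fin (n + 1)) (AlgebraicClosure ℚ))}
  {g : Fin q → Fin T → MvPolynomial (Fin (n + 1)) (AlgebraicClosure ℚ)} {d : ℕ}

theorem mem_Cls {N : ℕ} (c : Fin (N + 1) → (Fin (n + 1) →₀ ℕ))
    (b : Basis (Fin (N + 1)) (AlgebraicClosure ℚ) (VM I d))
    (hb : ∀ i, ((b i : VM I d) : MvPolynomial (Fin (n + 1)) (AlgebraicClosure ℚ) ⧸ I) =
        Ideal.Quotient.mkₐ (AlgebraicClosure ℚ) I (monomial (c i) 1))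
    (J : Ideal (MvPolynomial (Fin (n + 1)) (AlgebraicClosure ℚ)))
    (w : Fin (N + 1) → AlgebraicClosure ℚ)
    (h : ∑ k, w k • b k ∈ CV I d J) : Pc c w ∈ sat (J ⊔ I) := by
  obtain ⟨P, ⟨-, hP⟩, hPv⟩ := h
  have h1 : Ideal.Quotient.mkₐ (AlgebraicClosure ℚ) I (Pc c w) =
      ((∑ k, w k • b k : VM I d) : MvPolynomial (Fin (n + 1)) (AlgebraicClosure ℚ) ⧸ I) := by
    unfold Pc
    rw [map_sum]
    simp only [AddSubmonoidClass.coe_finsetSum, Submodule.coe_smul, hb]
    refine Finset.sum_congr rfl fun i _ => ?_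
    rw [← MvPolynomial.smul_eq_C_mul, map_smul]
  have h2 : Pc c w - P ∈ I := by
    rw [← Ideal.Quotient.eq_zero_iff_mem]
    have h3 : Ideal.Quotient.mkₐ (AlgebraicClosure ℚ) I (Pc c w - P) = 0 := by
      rw [map_sub, h1, sub_eq_zero]
      exact hPv.symm
    exact h3
  have h3 : Pc c w - P ∈ sat (J ⊔ I) := le_sat _ (Submodule.mem_sup_right h2)
  have h4 := Ideal.add_mem _ h3 (show P ∈ sat (J ⊔ I) from hP)
  rwa [sub_add_cancel] at h4

/-- **The bases** for the adapted sets. -/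
theorem adp_bases {N : ℕ}
    (b : Basis (Fin (N + 1)) (AlgebraicClosure ℚ) (VM I d)) (A : Finset (Fin q))
    (hA : Adp I g d A) :
    ∃ (W : Matrix (Fin (N + 1)) (Fin (N + 1)) (AlgebraicClosure ℚ)), W.det ≠ 0 ∧
      (∀ a, ∑ k, W a k • b k ∈ CV I d (∏ i ∈ A, (Ideal.span (Set.range (g i))) ^
          ordf (FV I (g i) d) d (∑ k, W a k • b k))) ∧
      (∀ i ∈ A, ∀ t, t ≤ d → ∀ a,
        t ≤ ordf (FV I (g i) d) d (∑ k, W a k • b k) → ∑ k, W a k • b k ∈ FV I (g i) d t) ∧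
      ∀ i ∈ A, ∀ t, t ≤ d → finrank (AlgebraicClosure ℚ) (FV I (g i) d t) =
        (Finset.univ.filter fun a => t ≤ ordf (FV I (g i) d) d (∑ k, W a k • b k)).card := by
  have hfin := VM_finite I d
  obtain ⟨M, B0, hB1, hB2⟩ := hA
  exact abs_bases b A (fun i => FV I (g i) d) (fun i => FV_antitone) (fun i => FV_zero)
    (fun e => CV I d (∏ i ∈ A, (Ideal.span (Set.range (g i))) ^ e i)) d B0 hB1 hB2

/-- the values of the adapted basis -/
theorem set_bound (hP2 : StBdC) {N : ℕ} (a : Fin q → ℕ) (hg : ∀ i t, (g i t).IsHomogeneous (a i))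
    (c : Fin (N + 1) → (Fin (n + 1) →₀ ℕ)) (hc : ∀ i, (c i).degree = d)
    (b : Basis (Fin (N + 1)) (AlgebraicClosure ℚ) (VM I d))
    (hb : ∀ i, ((b i : VM I d) : MvPolynomial (Fin (n + 1)) (AlgebraicClosure ℚ) ⧸ I) =
        Ideal.Quotient.mkₐ (AlgebraicClosure ℚ) I (monomial (c i) 1))
    (A : Finset (Fin q)) (w : Fin (N + 1) → AlgebraicClosure ℚ) (o : Fin q → ℕ)
    (ho : ∑ k, w k • b k ∈ CV I d (∏ i ∈ A, (Ideal.span (Set.range (g i))) ^ o i))
    (F : Type) [NormedField F] [CharZero F] [IsAlgClosed F] : ∃ A' : ℝ, 1 ≤ A' ∧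
      ∀ (j : AlgebraicClosure ℚ →+* F) (y : Fin (n + 1) → F), y ≠ 0 →
        (∀ c : F, ∀ Q ∈ I, eval (c • y) (map j Q) = 0) →
        ‖lf (fun i => j (w i)) (monP c y)‖ ≤ A' * ‖monP c y‖ *
          Real.exp (-∑ i, (o i : ℝ) * if i ∈ A then lg (a i) (g i) j y else 0) := by
  classical
  have hprod : ∏ i, (Ideal.span (Set.range (g i))) ^ (if i ∈ A then o i else 0) =
      ∏ i ∈ A, (Ideal.span (Set.range (g i))) ^ o i := by
    rw [← Finset.prod_subset (Finset.subset_univ A)]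
    · exact Finset.prod_congr rfl fun i hi => by rw [if_pos hi]
    · intro i _ hi
      rw [if_neg hi, pow_zero]
  obtain ⟨A1, hA1, hA⟩ := hP2 n q T d a (fun i => if i ∈ A then o i else 0) I g hg (Pc c w)
    (Pc_hom c hc w) (by
      rw [hprod]
      exact mem_Cls c b hb _ w ho) F
  obtain ⟨A2, hA2, hlow⟩ := monP_lower (F := F) I c b hb
  refine ⟨A1 * A2, one_le_mul_of_one_le_of_one_le hA1 hA2, fun j y hy hI => ?_⟩
  have h3 : lf (fun i => j (w i)) (monP c y) = eval y (map j (Pc c w)) := (eval_Pc c w j y).symm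
  rw [h3]
  refine (hA j y hy hI).trans ?_
  have h4 : ∑ i, (((if i ∈ A then o i else 0 : ℕ)) : ℝ) *
      max 0 (Real.log (‖y‖ ^ a i / ‖fun t => eval y (map j (g i t))‖)) =
      ∑ i, (o i : ℝ) * if i ∈ A then lg (a i) (g i) j y else 0 := by
    refine Finset.sum_congr rfl fun i _ => ?_
    split_ifs
    · rfl
    · rw [Nat.cast_zero, zero_mul, mul_zero]
  rw [h4]
  refine mul_le_mul_of_nonneg_right ?_ (Real.exp_pos _).le
  rw [mul_assoc]
  exact mul_le_mul_of_nonneg_left (hlow j y fun P hP => by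
    have h5 := hI 1 P hP
    rwa [one_smul] at h5) (by linarith)

end adapted

end Pool.Agent.T9h24.Ft
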