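import Mathlib
import Pool.Agent.T9h24.Ft.Adp
import Pool.Agent.T9h96.Ft.P1

/-!
Sets of at most two subschemes are adapted.
-/

set_option autoImplicit false
set_option linter.unusedSectionVars false

open Finset MvPolynomial NumberField IsDedekindDomain Module

namespace Pool.Agent.T9h24.Ft

open Pool.Agent.T9h24
open Pool.Agent.TH875 (VM VM_finite)

variable {n T q : ℕ} {I : Ideal (MvPolynomial (Fin (n + 1)) (AlgebraicClosure ℚ))}
  {g : Fin q → Fin T → MvPolynomial (Fin (n + 1)) (AlgebraicClosure ℚ)} {d : ℕ}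

theorem CV_inter (J J' J'' : Ideal (MvPolynomial (Fin (n + 1)) (AlgebraicClosure ℚ)))
    (h : ∀ P, P ∈ sat (J ⊔ I) → P ∈ sat (J' ⊔ I) → P ∈ sat (J'' ⊔ I)) (v : VM I d)
    (hv : v ∈ CV I d J) (hv' : v ∈ CV I d J') : v ∈ CV I d J'' := by
  obtain ⟨P, ⟨hPd, hP⟩, hPv⟩ := hv
  obtain ⟨P', ⟨-, hP'⟩, hPv'⟩ := hv'
  have h2 : P - P' ∈ I := by
    rw [← Ideal.Quotient.eq_zero_iff_mem]
    have h3 : Ideal.Quotient.mkₐ (AlgebraicClosure ℚ) I (P - P') = 0 := by
      rw [map_sub, sub_eq_zero]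
      exact hPv.trans hPv'.symm
    exact h3
  have h3 : P - P' ∈ sat (J' ⊔ I) := le_sat _ (Submodule.mem_sup_right h2)
  have h4 := Ideal.add_mem _ h3 (show P' ∈ sat (J' ⊔ I) from hP')
  rw [sub_add_cancel] at h4
  exact ⟨P, ⟨hPd, h P hP h4⟩, hPv⟩

/-- one subscheme is adapted -/
theorem adp_single (i : Fin q) : Adp I g d {i} := by
  have hfin := VM_finite I d
  obtain ⟨B, hB1, -⟩ := Pool.Agent.T9h96.Ft.stTwo (AlgebraicClosure ℚ) (VM I d) _ rfl
    (FV I (g i) d) (FV I (g i) d) FV_antitone FV_antitone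
  refine ⟨_, B, fun i' hi' => ?_, fun b e he => ?_⟩
  · rw [Finset.mem_singleton.1 hi']
    exact hB1
  · rw [Finset.prod_singleton]
    exact he i (Finset.mem_singleton_self i)

/-- two subschemes which intersect properly are adapted -/
theorem adp_pair (i i' : Fin q) (hne : i ≠ i') (h : Indep I (g i) (g i')) :
    Adp I g d {i, i'} := by
  have hfin := VM_finite I d
  obtain ⟨B, hB1, hB2⟩ := Pool.Agent.T9h96.Ft.stTwo (AlgebraicClosure ℚ) (VM I d) _ rfl
    (FV I (g i) d) (FV I (g i') d) FV_antitone FV_antitone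
  refine ⟨_, B, fun k hk => ?_, fun b e he => ?_⟩
  · rcases Finset.mem_insert.1 hk with h1 | h1
    · rw [h1]
      exact hB1
    · rw [Finset.mem_singleton.1 h1]
      exact hB2
  · rw [Finset.prod_pair hne]
    exact CV_inter _ _ _ (h (e i) (e i')) (B b) (he i (Finset.mem_insert_self _ _))
      (he i' (Finset.mem_insert_of_mem (Finset.mem_singleton_self _)))

end Pool.Agent.T9h24.Ft
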