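import Mathlib
import Pool.Agent.T9h24.Ft.Adp

/-!
The general theorem for filtrations, integral coordinates.
-/

set_option autoImplicit false
set_option linter.unusedSectionVars false

open Finset MvPolynomial NumberField IsDedekindDomain Module

namespace Pool.Agent.T9h24.Ft

open Pool.Agent.T9h24
open Pool.Agent.TH875 (VM VM_finite)

open Classical in
/-- **The general inequality**, integral coordinates. -/
theorem degF (hP2 : StBdC) {m n q T : ℕ} (d r : ℕ) (hd : 1 ≤ d) (hr : 1 ≤ r)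
    (G : Fin m → MvPolynomial (Fin (n + 1)) ℚ) (g0 : Fin m → ℕ)
    (hG : ∀ k, (G k).IsHomogeneous (g0 k))
    (g : Fin q → Fin T → MvPolynomial (Fin (n + 1)) (AlgebraicClosure ℚ)) (a : Fin q → ℕ)
    (hg : ∀ i t, (g i t).IsHomogeneous (a i)) :
    ∃ Z : Finset (MvPolynomial (Fin (n + 1)) (AlgebraicClosure ℚ)),
      (∀ P ∈ Z, P ∉ idX G ∧ ∃ M, P.IsHomogeneous M) ∧
      ∀ (S : Finset Nat.Primes) (ε : ℝ), 0 < ε → ∃ Cc : ℝ, ∀ (E : Type) [Field E]
        [NumberField E], Module.finrank ℚ E = r → ∀ x : Fin (n + 1) → 𝓞 E, x ≠ 0 →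
      (∀ k, aeval (fun i => (x i : E)) (G k) = 0) →
      (∀ P ∈ Z, ∀ τ : E →+* AlgebraicClosure ℚ, eval (fun i => τ (x i : E)) P ≠ 0) →
      ∀ (e : (E →+* ℂ) → Finset (Fin q)) (j : AlgebraicClosure ℚ →+* ℂ)
        (ep : ∀ p : Nat.Primes, (E →+* PadicAlgCl p) → Finset (Fin q))
        (jp : ∀ p : Nat.Primes, AlgebraicClosure ℚ →+* PadicAlgCl p),
        (∀ τ, Adp (idX G) g d (e τ)) → (∀ p ∈ S, ∀ τ, Adp (idX G) g d (ep p τ)) →
      ∑ i, LstG (pf (idX G) (g i) d) r (fun τ : E →+* ℂ =>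
          if i ∈ e τ then lg (a i) (g i) j (fun l => τ (x l : E)) else 0) +
        ∑ p ∈ S, ∑ i, LstG (pf (idX G) (g i) d) r (fun τ : E →+* PadicAlgCl p =>
          if i ∈ ep p τ then lg (a i) (g i) (jp p) (fun l => τ (x l : E)) else 0) ≤
        (d + ε) * (Height.logHeight (fun i => (x i : E)) / r) + Cc := by
  obtain ⟨I, hI⟩ : ∃ I, I = idX G := ⟨_, rfl⟩
  have hfin := VM_finite I d
  have hr0 : (0 : ℝ) < r := by exact_mod_cast hr
  have hd0 : (0 : ℝ) < d := by exact_mod_cast hd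
  rcases Nat.eq_zero_or_pos (finrank (AlgebraicClosure ℚ) (VM I d)) with h0 | hpos
  · -- no points
    refine ⟨∅, by simp, fun S ε hε => ⟨0, fun E _ _ hE x hx hxG _ => ?_⟩⟩
    exfalso
    obtain ⟨τ0⟩ := exists_emb E ℂ
    obtain ⟨-, ι0, -⟩ := exists_lift τ0
    apply hx
    funext i
    have h1 : (X i : MvPolynomial (Fin (n + 1)) (AlgebraicClosure ℚ)) ^ d ∈ I := by
      rw [← Ideal.Quotient.eq_zero_iff_mem]
      have h2 : Ideal.Quotient.mkₐ (AlgebraicClosure ℚ) I ((X i) ^ d) ∈ VM I d := by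
        refine ⟨(X i) ^ d, ?_, rfl⟩
        have := (isHomogeneous_X (AlgebraicClosure ℚ) i).pow d
        rwa [one_mul] at this
      rw [Submodule.finrank_eq_zero.1 h0] at h2
      exact (Submodule.mem_bot _).1 h2
    rw [hI] at h1
    have h2 := idX_eval h1 ι0 (fun l => τ0 (x l : E)) fun k =>
      map_point (G k) (fun i => (x i : E)) τ0 (hxG k)
    rw [map_pow, map_pow, map_X, eval_X] at h2
    have h3 : (x i : E) = 0 := (map_eq_zero τ0).1 (eq_zero_of_pow_eq_zero h2)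
    exact RingOfIntegers.ext (by simpa using h3)
  obtain ⟨N, hN⟩ : ∃ N, finrank (AlgebraicClosure ℚ) (VM I d) = N + 1 :=
    ⟨finrank (AlgebraicClosure ℚ) (VM I d) - 1, by omega⟩
  obtain ⟨c, b, hc, hb⟩ := mono_basis I d N hN
  -- the adapted sets
  choose W hWd hWm hWl hWc using fun p : {A : Finset (Fin q) // Adp I g d A} =>
    adp_bases b p.1 p.2
  obtain ⟨G', hG'0, hG'1, hG'2, hG'⟩ := exists_poly (Finset.univ.image fun p :
    {A : Finset (Fin q) // Adp I g d A} × Fin (N + 1) × Fin (N + 1) => W p.1 p.2.1 p.2.2)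
  have hWr : ∀ e a i, W e a i ∈ (mp (AlgebraicClosure ℚ) G').roots := fun e a i =>
    hG' _ (Finset.mem_image.2 ⟨(e, a, i), Finset.mem_univ _, rfl⟩)
  -- the thresholds
  have hN0 : (0 : ℝ) < (N : ℝ) + 1 := by positivity
  have hNr : (finrank (AlgebraicClosure ℚ) (VM I d) : ℝ) = (N : ℝ) + 1 := by
    rw [hN]
    push_cast
    rfl
  have hθ : ∀ (i : Fin q) (u : Fin r), ∃ θ : Fin (d + 1),
      ((θ : ℕ) * (((u : ℝ) + 1) / r) - ∑ t ∈ Finset.range θ,
        (1 - (finrank (AlgebraicClosure ℚ) (Fil I (g i) d (t + 1)) : ℝ) /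
          finrank (AlgebraicClosure ℚ) (VM I d))) = pf I (g i) d (((u : ℝ) + 1) / r) :=
    fun i u => exists_eq_ciSup_of_finite
  choose θ hθ using hθ
  have hTF : ∀ i (s : ℕ), ((TF N (FV I (g i) d) s : ℕ) : ℝ) = ((N : ℝ) + 1) *
      ∑ t ∈ Finset.range s, (1 - (finrank (AlgebraicClosure ℚ) (Fil I (g i) d (t + 1)) : ℝ) /
          finrank (AlgebraicClosure ℚ) (VM I d)) := by
    intro i s
    unfold TF
    rw [Finset.mul_sum]
    push_cast
    refine Finset.sum_congr rfl fun t _ => ?_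
    have h1 : finrank (AlgebraicClosure ℚ) (Fil I (g i) d (t + 1)) ≤ N + 1 := by
      rw [← hN]
      exact Submodule.finrank_mono (Fil_le _)
    rw [FV_finrank, Nat.cast_sub h1, hNr]
    push_cast
    field_simp
  have hT : ∀ i, ∀ u : Fin r, ((N : ℝ) + 1) *
      (1 * (r / (u + 1) * pf I (g i) d (((u : ℝ) + 1) / r))) ≤
      (((θ i u : Fin (d + 1)) : ℕ) : ℝ) * ((N : ℝ) + 1) -
        r / (u + 1) * ((TF N (FV I (g i) d) (θ i u) : ℕ) : ℝ) := by
    intro i u
    rw [hTF, ← hθ i u]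
    have hu0 : (0 : ℝ) < (u : ℝ) + 1 := by positivity
    refine le_of_eq ?_
    field_simp
  obtain ⟨Z, hZ, h⟩ := mainI N r hr G' hG'0 hG'1 hG'2
  refine ⟨Z.image (Pc c), fun P hP => ?_, fun S ε hε => ?_⟩
  · obtain ⟨u, hu, rfl⟩ := Finset.mem_image.1 hP
    rw [← hI]
    exact ⟨Pc_notMem I c b hb u (hZ u hu), _, Pc_hom c hc u⟩
  obtain ⟨Cc, hC⟩ := h S (ε / d * ((N : ℝ) + 1)) (mul_pos (div_pos hε hd0) hN0)
  -- the constants of the places
  have hbound : ∀ (F : Type) [NormedField F] [CharZero F] [IsAlgClosed F], ∃ A : ℝ, 1 ≤ A ∧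
      ∀ (p : {A : Finset (Fin q) // Adp I g d A}) (a' : Fin (N + 1))
        (j : AlgebraicClosure ℚ →+* F) (y : Fin (n + 1) → F), y ≠ 0 →
        (∀ c : F, ∀ Q ∈ I, eval (c • y) (map j Q) = 0) →
        ‖lf (fun i => j (W p a' i)) (monP c y)‖ ≤ A * ‖monP c y‖ *
          Real.exp (-∑ i, (ordf (FV I (g i) d) d (∑ k, W p a' k • b k) : ℝ) *
            if i ∈ p.1 then lg (a i) (g i) j y else 0) := by
    intro F _ _ _
    choose A hA1 hA using fun z : {A : Finset (Fin q) // Adp I g d A} × Fin (N + 1) =>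
      set_bound hP2 a hg c hc b hb z.1.1 (W z.1 z.2)
        (fun i => ordf (FV I (g i) d) d (∑ k, W z.1 z.2 k • b k)) (hWm z.1 z.2) F
    have hA0 : ∀ z, 0 ≤ A z := fun z => zero_le_one.trans (hA1 z)
    have hs : 0 ≤ ∑ z, A z := Finset.sum_nonneg fun z _ => hA0 z
    refine ⟨1 + ∑ z, A z, by linarith, fun p a' j y hy hy' => ?_⟩
    refine (hA (p, a') j y hy hy').trans ?_
    have h1 := Finset.single_le_sum (f := A) (fun z _ => hA0 z) (Finset.mem_univ (p, a'))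
    refine mul_le_mul_of_nonneg_right (mul_le_mul_of_nonneg_right ?_ (norm_nonneg _))
      (Real.exp_pos _).le
    linarith
  obtain ⟨Ai, hAi1, hAi⟩ := hbound ℂ
  choose Ap hAp1 hAp using fun p : Nat.Primes => hbound (PadicAlgCl p)
  obtain ⟨Ki, hKi⟩ := filt_place (F := ℂ) (r := r) (dd := d) b G' hG'0 W hWd hWr
    (fun p => p.1)
    (fun p i a' => ordf (FV I (g i) d) d (∑ k, W p a' k • b k))
    (fun i => FV I (g i) d)
    (fun p i hi t ht a' h => hWl p i hi t ht a' h)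
    (fun p i hi t ht => hWc p i hi t ht)
    (fun i u => (θ i u : ℕ)) (fun i u => by have := (θ i u).2; omega) Ai hAi1
  choose Kp hKp using fun p : Nat.Primes => filt_place (F := PadicAlgCl p) (r := r) (dd := d)
    b G' hG'0 W hWd hWr
    (fun p => p.1)
    (fun p i a' => ordf (FV I (g i) d) d (∑ k, W p a' k • b k))
    (fun i => FV I (g i) d)
    (fun p i hi t ht a' h => hWl p i hi t ht a' h)
    (fun p i hi t ht => hWc p i hi t ht)
    (fun i u => (θ i u : ℕ)) (fun i u => by have := (θ i u).2; omega) (Ap p) (hAp1 p)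
  refine ⟨(Cc + (r : ℝ) ^ (N + 1) * (Ki + ∑ p ∈ S, Kp p)) /
    ((r : ℝ) ^ N * ((N : ℝ) + 1) * r),
    fun E _ _ hE x hx hxG hxZ e j ep jp he hep => ?_⟩
  -- the point
  set Y : Fin (N + 1) → 𝓞 E := monP c x with hYd
  have hYm : ∀ (F : Type) [Field F] (τ : E →+* F), (fun i => τ (Y i : E)) =
      monP c (fun i => τ (x i : E)) := fun F _ τ => funext fun i => map_monP c τ x i
  have hxτ : ∀ (F : Type) [Field F] [CharZero F] (τ : E →+* F),
      (fun i => τ (x i : E)) ≠ 0 := by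
    intro F _ _ τ h0
    apply hx
    funext i
    have h1 : τ (x i : E) = 0 := congrFun h0 i
    exact RingOfIntegers.ext (by simpa using h1)
  have hXc : ∀ (F : Type) [Field F] [CharZero F] (τ : E →+* F)
      (j : AlgebraicClosure ℚ →+* F), ∀ c : F, ∀ P ∈ I,
        eval (c • fun i => τ (x i : E)) (map j P) = 0 := by
    intro F _ _ τ j c P hP
    rw [hI] at hP
    refine idX_eval hP j _ fun k => ?_
    rw [eval_smul_form ((hG k).map (algebraMap ℚ F)),
      map_point (G k) (fun i => (x i : E)) τ (hxG k), mul_zero]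
  have hXτ : ∀ (F : Type) [Field F] [CharZero F] (τ : E →+* F)
      (j : AlgebraicClosure ℚ →+* F), ∀ P ∈ I, eval (fun i => τ (x i : E)) (map j P) = 0 := by
    intro F _ _ τ j P hP
    have h1 := hXc F τ j 1 P hP
    rwa [one_smul] at h1
  have hY : Y ≠ 0 := by
    obtain ⟨τ0⟩ := exists_emb E ℂ
    obtain ⟨-, ι0, -⟩ := exists_lift τ0
    obtain ⟨A, -, hA⟩ := monP_lower (F := ℂ) I c b hb
    have h1 := hA ι0 _ (hXτ ℂ τ0 ι0)
    intro h0
    have h2 : monP c (fun i => τ0 (x i : E)) = 0 := by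
      rw [← hYm ℂ τ0, h0]
      funext i
      simp
    rw [h2, norm_zero, mul_zero] at h1
    exact absurd h1 (not_le.2 (pow_pos (norm_pos_iff.2 (hxτ ℂ τ0)) _))
  have hci : Fintype.card (E →+* ℂ) = r := by rw [card_emb ℂ, hE]
  have hcp : ∀ p : Nat.Primes, Fintype.card (E →+* PadicAlgCl p) = r := fun p => by
    rw [card_emb (PadicAlgCl p), hE]
  rw [← hI] at he hep ⊢
  -- the functions
  set μi : (E →+* ℂ) → Fin q → ℝ := fun τ i =>
    if i ∈ e τ then lg (a i) (g i) j (fun l => τ (x l : E)) else 0 with hμi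
  set μp : ∀ p : Nat.Primes, (E →+* PadicAlgCl p) → Fin q → ℝ := fun p τ i =>
    if i ∈ ep p τ then lg (a i) (g i) (jp p) (fun l => τ (x l : E)) else 0 with hμp
  have hμi0 : ∀ τ i, 0 ≤ μi τ i := fun τ i => by
    simp only [hμi]
    split_ifs
    · exact lg_nonneg _ _ _ _
    · exact le_rfl
  have hμp0 : ∀ p τ i, 0 ≤ μp p τ i := fun p τ i => by
    simp only [hμp]
    split_ifs
    · exact lg_nonneg _ _ _ _
    · exact le_rfl
  obtain ⟨δi, Asi, hδi, hμδi, hδμi, hsumi⟩ := Ls.place_layersK (n' := N) hr hci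
    (fun i => pf I (g i) d) (fun i => pf_zero) (fun i u => (θ i u : ℕ))
    (fun i u => ((TF N (FV I (g i) d) (θ i u) : ℕ) : ℝ)) ((N : ℝ) + 1) 1 hN0.le zero_le_one hT
    μi hμi0
  have hlp := fun p : Nat.Primes => Ls.place_layersK (n' := N) hr (hcp p)
    (fun i => pf I (g i) d) (fun i => pf_zero) (fun i u => (θ i u : ℕ))
    (fun i u => ((TF N (FV I (g i) d) (θ i u) : ℕ) : ℝ)) ((N : ℝ) + 1) 1 hN0.le zero_le_one hT
    (μp p) (hμp0 p)
  choose δp Asp hδp hμδp hδμp hsump using hlp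
  have hMi := hKi E Y hY (fun τ => ⟨e τ, he τ⟩) j μi (fun τ i h0 => by
      by_contra h1
      apply h0
      simp only [hμi]
      exact if_neg h1)
    (fun τ a' => by
      rw [hYm ℂ τ]
      exact hAi ⟨e τ, he τ⟩ a' j _ (hxτ ℂ τ) (hXc ℂ τ j)) δi Asi hδi hμδi hδμi
  have hMp : ∀ p ∈ S, _ := fun p hp => hKp p E Y hY (fun τ => ⟨ep p τ, hep p hp τ⟩) (jp p)
    (μp p) (fun τ i h0 => by
      by_contra h1
      apply h0
      simp only [hμp]
      exact if_neg h1)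
    (fun τ a' => by
      rw [hYm _ τ]
      exact hAp p ⟨ep p τ, hep p hp τ⟩ a' (jp p) _ (hxτ _ τ) (hXc _ τ (jp p)))
    (δp p) (Asp p) (hδp p) (hμδp p) (hδμp p)
  have h1 := hC E hE Y hY (fun u hu τ => by
      have h2 := hxZ (Pc c u) (Finset.mem_image_of_mem _ hu) τ
      have h3 := eval_Pc c u (RingHom.id (AlgebraicClosure ℚ)) (fun i => τ (x i : E))
      rw [MvPolynomial.map_id] at h3
      rw [h3] at h2
      intro h4
      apply h2
      rw [← h4]
      refine Finset.sum_congr rfl fun i _ => ?_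
      rw [RingHom.id_apply, ← congrFun (hYm _ τ) i])
    _ hMi (fun p σ => ∑ i, ∑ u, δp p i u * (((θ i u : ℕ) : ℝ) * cntA σ (Asp p i u) -
      ((TF N (FV I (g i) d) (θ i u) : ℕ) : ℝ)) - Kp p)
    (fun p hp => hMp p hp)
  have h2 := hsumi Ki
  have h3 : ∀ p ∈ S, _ := fun p _ => hsump p (Kp p)
  have h4 := Finset.sum_le_sum h3
  rw [Finset.sum_sub_distrib, ← Finset.mul_sum, ← Finset.mul_sum, ← Finset.mul_sum,
    ← Finset.mul_sum, ← Finset.mul_sum] at h4
  set A1 := ∑ i, LstG (pf I (g i) d) r (fun τ => μi τ i) with hA1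
  set A2 := ∑ p ∈ S, ∑ i, LstG (pf I (g i) d) r (fun τ => μp p τ i) with hA2
  have hxE : (fun i => (x i : E)) ≠ 0 := hxτ E (RingHom.id E)
  have hht : Height.logHeight (fun i => (Y i : E)) ≤
      (d : ℝ) * Height.logHeight (fun i => (x i : E)) := by
    have h7 := monP_height c hc (fun i => (x i : E)) hxE
    have h8 : (fun i => (Y i : E)) = monP c (fun i => (x i : E)) := hYm E (RingHom.id E)
    rw [h8]
    exact h7
  set LH := Height.logHeight (fun i => (x i : E)) with hLH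
  have h7 := h1.trans (add_le_add_left (mul_le_mul_of_nonneg_left hht (by positivity)) _)
  have hden : 0 < (r : ℝ) ^ N * ((N : ℝ) + 1) * r := by positivity
  have h8 : (r : ℝ) ^ N * ((N : ℝ) + 1) * r * (A1 + A2) ≤
      (r : ℝ) ^ N * ((N : ℝ) + 1) * r * ((d + ε) * (LH / r)) +
        (Cc + (r : ℝ) ^ (N + 1) * (Ki + ∑ p ∈ S, Kp p)) := by
    have h9 : (r : ℝ) ^ N * ((N : ℝ) + 1 + ε / d * ((N : ℝ) + 1)) * ((d : ℝ) * LH) =
        (r : ℝ) ^ N * ((N : ℝ) + 1) * r * ((d + ε) * (LH / r)) := by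
      field_simp
    rw [h9] at h7
    have h10 : (r : ℝ) ^ N * ((N : ℝ) + 1) * r * (A1 + A2) =
        (r : ℝ) ^ N * (((N : ℝ) + 1) * (1 * (r * A1))) +
          (r : ℝ) ^ N * (((N : ℝ) + 1) * (1 * (r * A2))) := by ring
    rw [h10]
    linarith
  have h9 : (r : ℝ) ^ N * ((N : ℝ) + 1) * r * ((d + ε) * (LH / r)) +
        (Cc + (r : ℝ) ^ (N + 1) * (Ki + ∑ p ∈ S, Kp p)) =
      (r : ℝ) ^ N * ((N : ℝ) + 1) * r * ((d + ε) * (LH / r) +
        (Cc + (r : ℝ) ^ (N + 1) * (Ki + ∑ p ∈ S, Kp p)) /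
          ((r : ℝ) ^ N * ((N : ℝ) + 1) * r)) := by
    rw [mul_add ((r : ℝ) ^ N * ((N : ℝ) + 1) * r) ((d + ε) * (LH / r)) _,
      mul_div_cancel₀ _ hden.ne']
  rw [h9] at h8
  exact le_of_mul_le_mul_left h8 hden

end Pool.Agent.T9h24.Ft
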