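import Mathlib
import Pool.Agent.T9h24.Ft.Pair

/-!
Adapted sets and dimensions in terms of polynomials.
-/

set_option autoImplicit false
set_option linter.unusedSectionVars false

open Finset MvPolynomial NumberField IsDedekindDomain Module

namespace Pool.Agent.T9h24.Ft

open Pool.Agent.T9h24
open Pool.Agent.TH875 (VM VM_finite)

variable {n T q : ℕ}

/-- adapted sets in terms of polynomials -/
def AdpE (I : Ideal (MvPolynomial (Fin (n + 1)) (AlgebraicClosure ℚ)))
    (g : Fin q → Fin T → MvPolynomial (Fin (n + 1)) (AlgebraicClosure ℚ)) (d : ℕ)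
    (A : Finset (Fin q)) : Prop :=
  ∃ (M : ℕ) (B : Fin M → MvPolynomial (Fin (n + 1)) (AlgebraicClosure ℚ)),
    (∀ b, (B b).IsHomogeneous d) ∧
    (∀ c : Fin M → AlgebraicClosure ℚ, ∑ b, c b • B b ∈ I → c = 0) ∧
    (∀ P : MvPolynomial (Fin (n + 1)) (AlgebraicClosure ℚ), P.IsHomogeneous d →
      ∃ c : Fin M → AlgebraicClosure ℚ, P - ∑ b, c b • B b ∈ I ∧ ∀ i ∈ A, ∀ e : ℕ,
        P ∈ sat (Ideal.span (Set.range (g i)) ^ e ⊔ I) → ∀ b, c b ≠ 0 →
          B b ∈ sat (Ideal.span (Set.range (g i)) ^ e ⊔ I)) ∧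
    ∀ b, ∀ e : Fin q → ℕ, (∀ i ∈ A, B b ∈ sat (Ideal.span (Set.range (g i)) ^ e i ⊔ I)) →
      B b ∈ sat ((∏ i ∈ A, Ideal.span (Set.range (g i)) ^ e i) ⊔ I)

variable {I : Ideal (MvPolynomial (Fin (n + 1)) (AlgebraicClosure ℚ))} {d : ℕ}

/-- the class of a form -/
theorem mk_mem_VM {P : MvPolynomial (Fin (n + 1)) (AlgebraicClosure ℚ)}
    (hP : P.IsHomogeneous d) : Ideal.Quotient.mkₐ (AlgebraicClosure ℚ) I P ∈ VM I d :=
  ⟨P, hP, rfl⟩

theorem sub_mem_of_mk {P Q : MvPolynomial (Fin (n + 1)) (AlgebraicClosure ℚ)}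
    (h : Ideal.Quotient.mkₐ (AlgebraicClosure ℚ) I P =
      Ideal.Quotient.mkₐ (AlgebraicClosure ℚ) I Q) : P - Q ∈ I := by
  rw [← Ideal.Quotient.eq_zero_iff_mem]
  have h3 : Ideal.Quotient.mkₐ (AlgebraicClosure ℚ) I (P - Q) = 0 := by
    rw [map_sub, sub_eq_zero]
    exact h
  exact h3

theorem mk_of_sub {P Q : MvPolynomial (Fin (n + 1)) (AlgebraicClosure ℚ)}
    (h : P - Q ∈ I) : Ideal.Quotient.mkₐ (AlgebraicClosure ℚ) I P =
      Ideal.Quotient.mkₐ (AlgebraicClosure ℚ) I Q := by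
  have h1 : Ideal.Quotient.mkₐ (AlgebraicClosure ℚ) I (P - Q) = 0 :=
    Ideal.Quotient.eq_zero_iff_mem.2 h
  rw [map_sub, sub_eq_zero] at h1
  exact h1

/-- membership of a class -/
theorem mk_mem_CV (J : Ideal (MvPolynomial (Fin (n + 1)) (AlgebraicClosure ℚ)))
    {P : MvPolynomial (Fin (n + 1)) (AlgebraicClosure ℚ)} (hP : P.IsHomogeneous d)
    (v : VM I d) (hv : (v : MvPolynomial (Fin (n + 1)) (AlgebraicClosure ℚ) ⧸ I) =
      Ideal.Quotient.mkₐ (AlgebraicClosure ℚ) I P) :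
    v ∈ CV I d J ↔ P ∈ sat (J ⊔ I) := by
  constructor
  · rintro ⟨Q, ⟨-, hQ⟩, hQv⟩
    have h2 : P - Q ∈ I := sub_mem_of_mk (hv.symm.trans hQv.symm)
    have h3 : P - Q ∈ sat (J ⊔ I) := le_sat _ (Submodule.mem_sup_right h2)
    have h4 := Ideal.add_mem _ h3 (show Q ∈ sat (J ⊔ I) from hQ)
    rwa [sub_add_cancel] at h4
  · intro h
    exact ⟨P, ⟨hP, h⟩, hv.symm⟩

theorem FV_eq (g : Fin T → MvPolynomial (Fin (n + 1)) (AlgebraicClosure ℚ)) (e : ℕ) :
    FV I g d e = CV I d (Ideal.span (Set.range g) ^ e) := rfl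

theorem mk_sum {M : ℕ} (c : Fin M → AlgebraicClosure ℚ)
    (B : Fin M → MvPolynomial (Fin (n + 1)) (AlgebraicClosure ℚ)) (v : Fin M → VM I d)
    (hv : ∀ b, (v b : MvPolynomial (Fin (n + 1)) (AlgebraicClosure ℚ) ⧸ I) =
      Ideal.Quotient.mkₐ (AlgebraicClosure ℚ) I (B b)) :
    ((∑ b, c b • v b : VM I d) : MvPolynomial (Fin (n + 1)) (AlgebraicClosure ℚ) ⧸ I) =
      Ideal.Quotient.mkₐ (AlgebraicClosure ℚ) I (∑ b, c b • B b) := by
  rw [map_sum]
  simp only [AddSubmonoidClass.coe_finsetSum, Submodule.coe_smul, hv, map_smul]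

/-- from polynomials to bases -/
theorem adp_of_adpE {g : Fin q → Fin T → MvPolynomial (Fin (n + 1)) (AlgebraicClosure ℚ)}
    {A : Finset (Fin q)} (h : AdpE I g d A) : Adp I g d A := by
  classical
  obtain ⟨M, B, hBd, hBi, hBs, hB2⟩ := h
  set v : Fin M → VM I d := fun b => ⟨_, mk_mem_VM (hBd b)⟩ with hv
  have hvB : ∀ b, (v b : MvPolynomial (Fin (n + 1)) (AlgebraicClosure ℚ) ⧸ I) =
      Ideal.Quotient.mkₐ (AlgebraicClosure ℚ) I (B b) := fun b => rfl
  have hli : LinearIndependent (AlgebraicClosure ℚ) v := by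
    rw [Fintype.linearIndependent_iff]
    intro c hc
    have h1 := mk_sum c B v hvB
    rw [hc] at h1
    have h2 : Ideal.Quotient.mkₐ (AlgebraicClosure ℚ) I (∑ b, c b • B b) = 0 := h1.symm
    exact congrFun (hBi c (Ideal.Quotient.eq_zero_iff_mem.1 h2))
  have hrep : ∀ (w : VM I d) (P : MvPolynomial (Fin (n + 1)) (AlgebraicClosure ℚ))
      (c : Fin M → AlgebraicClosure ℚ), P - ∑ b, c b • B b ∈ I →
      (w : MvPolynomial (Fin (n + 1)) (AlgebraicClosure ℚ) ⧸ I) =
        Ideal.Quotient.mkₐ (AlgebraicClosure ℚ) I P → w = ∑ b, c b • v b := by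
    intro w P c hc hw
    apply Subtype.ext
    rw [mk_sum c B v hvB, hw]
    exact mk_of_sub hc
  have hsp : ⊤ ≤ Submodule.span (AlgebraicClosure ℚ) (Set.range v) := by
    rintro ⟨w, hw⟩ -
    obtain ⟨P, hP, hPw⟩ := hw
    obtain ⟨c, hc, -⟩ := hBs P hP
    have h1 := hrep ⟨w, ⟨P, hP, hPw⟩⟩ P c hc hPw.symm
    rw [h1]
    exact Submodule.sum_mem _ fun b _ => Submodule.smul_mem _ _
      (Submodule.subset_span (Set.mem_range_self b))
  refine ⟨M, Basis.mk hli hsp, fun i hi e => ?_, fun b e he => ?_⟩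
  · refine le_antisymm ?_ ?_
    · rintro w hw
      obtain ⟨P, ⟨hPd, hP⟩, hPw⟩ := hw
      obtain ⟨c, hc, hc2⟩ := hBs P hPd
      have h1 := hrep w P c hc hPw.symm
      rw [h1]
      refine Submodule.sum_mem _ fun b _ => ?_
      by_cases hcb : c b = 0
      · rw [hcb, zero_smul]
        exact Submodule.zero_mem _
      · refine Submodule.smul_mem _ _ (Submodule.subset_span ⟨b, ?_, ?_⟩)
        · show Basis.mk hli hsp b ∈ FV I (g i) d e
          rw [Basis.mk_apply, FV_eq, mk_mem_CV _ (hBd b) (v b) (hvB b)]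
          exact hc2 i hi e hP b hcb
        · rw [Basis.mk_apply]
    · rw [Submodule.span_le]
      rintro _ ⟨b, hb, rfl⟩
      exact hb
  · rw [Basis.mk_apply, mk_mem_CV _ (hBd b) (v b) (hvB b)]
    refine hB2 b e fun i hi => ?_
    have h1 := he i hi
    rw [Basis.mk_apply, FV_eq, mk_mem_CV _ (hBd b) (v b) (hvB b)] at h1
    exact h1

/-- from bases to polynomials -/
theorem adpE_of_adp {g : Fin q → Fin T → MvPolynomial (Fin (n + 1)) (AlgebraicClosure ℚ)}
    {A : Finset (Fin q)} (h : Adp I g d A) : AdpE I g d A := by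
  classical
  obtain ⟨M, B', hB1, hB2⟩ := h
  have hex : ∀ b, ∃ P : MvPolynomial (Fin (n + 1)) (AlgebraicClosure ℚ), P.IsHomogeneous d ∧
      (B' b : MvPolynomial (Fin (n + 1)) (AlgebraicClosure ℚ) ⧸ I) =
        Ideal.Quotient.mkₐ (AlgebraicClosure ℚ) I P := by
    intro b
    obtain ⟨P, hP, hPb⟩ := (B' b).2
    exact ⟨P, hP, hPb.symm⟩
  choose B hBd hBB using hex
  refine ⟨M, B, hBd, fun c hc => ?_, fun P hP => ?_, fun b e he => ?_⟩
  · have h1 : ∑ b, c b • B' b = 0 := by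
      apply Subtype.ext
      rw [mk_sum c B (fun b => B' b) hBB]
      exact Ideal.Quotient.eq_zero_iff_mem.2 hc
    funext b
    exact Fintype.linearIndependent_iff.1 B'.linearIndependent c h1 b
  · set w : VM I d := ⟨_, mk_mem_VM hP⟩ with hw
    refine ⟨fun b => B'.repr w b, ?_, fun i hi e he b hb => ?_⟩
    · apply sub_mem_of_mk
      rw [← mk_sum (fun b => B'.repr w b) B (fun b => B' b) hBB, B'.sum_repr w]
    · have h1 : w ∈ FV I (g i) d e := by
        rw [FV_eq, mk_mem_CV _ hP w rfl]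
        exact he
      rw [hB1 i hi e] at h1
      have h2 := (B'.mem_span_image).1 h1
      have h3 : b ∈ {b | B' b ∈ FV I (g i) d e} := h2 (Finsupp.mem_support_iff.2 hb)
      have h4 : B' b ∈ FV I (g i) d e := h3
      rw [FV_eq, mk_mem_CV _ (hBd b) (B' b) (hBB b)] at h4
      exact h4
  · rw [← mk_mem_CV _ (hBd b) (B' b) (hBB b)]
    refine hB2 b e fun i hi => ?_
    rw [FV_eq, mk_mem_CV _ (hBd b) (B' b) (hBB b)]
    exact he i hi

/-- the dimension of the space of the classes -/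
theorem finrank_classes (U : Submodule (AlgebraicClosure ℚ)
      (MvPolynomial (Fin (n + 1)) (AlgebraicClosure ℚ)))
    (hU : U ≤ homogeneousSubmodule (Fin (n + 1)) (AlgebraicClosure ℚ) d)
    (hI : homogeneousSubmodule (Fin (n + 1)) (AlgebraicClosure ℚ) d ⊓
      I.restrictScalars (AlgebraicClosure ℚ) ≤ U) :
    finrank (AlgebraicClosure ℚ) (U.map (Ideal.Quotient.mkₐ (AlgebraicClosure ℚ) I).toLinearMap) =
      finrank (AlgebraicClosure ℚ) U - finrank (AlgebraicClosure ℚ)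
        (homogeneousSubmodule (Fin (n + 1)) (AlgebraicClosure ℚ) d ⊓
          I.restrictScalars (AlgebraicClosure ℚ) : Submodule (AlgebraicClosure ℚ)
            (MvPolynomial (Fin (n + 1)) (AlgebraicClosure ℚ))) := by
  have hfin : FiniteDimensional (AlgebraicClosure ℚ)
      (homogeneousSubmodule (Fin (n + 1)) (AlgebraicClosure ℚ) d) :=
    Module.Finite.iff_fg.2 (homogeneousSubmodule_fg _ _ d)
  have hfinU : FiniteDimensional (AlgebraicClosure ℚ) U :=
    Submodule.finiteDimensional_of_le hU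
  set f := (Ideal.Quotient.mkₐ (AlgebraicClosure ℚ) I).toLinearMap with hf
  have h1 := LinearMap.finrank_range_add_finrank_ker (f.domRestrict U)
  have h2 : LinearMap.range (f.domRestrict U) = U.map f := LinearMap.range_domRestrict U f
  have h3 : finrank (AlgebraicClosure ℚ) (LinearMap.ker (f.domRestrict U)) =
      finrank (AlgebraicClosure ℚ)
        (homogeneousSubmodule (Fin (n + 1)) (AlgebraicClosure ℚ) d ⊓
          I.restrictScalars (AlgebraicClosure ℚ) : Submodule (AlgebraicClosure ℚ)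
            (MvPolynomial (Fin (n + 1)) (AlgebraicClosure ℚ))) := by
    have h4 : (LinearMap.ker (f.domRestrict U)).map U.subtype =
        homogeneousSubmodule (Fin (n + 1)) (AlgebraicClosure ℚ) d ⊓
          I.restrictScalars (AlgebraicClosure ℚ) := by
      ext P
      constructor
      · rintro ⟨⟨Q, hQ⟩, hQk, rfl⟩
        refine ⟨hU hQ, ?_⟩
        have h5 : f Q = 0 := hQk
        exact Ideal.Quotient.eq_zero_iff_mem.1 h5
      · rintro ⟨hPd, hPI⟩
        refine ⟨⟨P, hI ⟨hPd, hPI⟩⟩, ?_, rfl⟩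
        show f P = 0
        exact Ideal.Quotient.eq_zero_iff_mem.2 hPI
    rw [← h4, Submodule.finrank_map_subtype_eq]
  rw [h2, h3] at h1
  omega

theorem finrank_Fil (g : Fin T → MvPolynomial (Fin (n + 1)) (AlgebraicClosure ℚ)) (e : ℕ) :
    finrank (AlgebraicClosure ℚ) (Fil I g d e) =
      finrank (AlgebraicClosure ℚ) (homogeneousSubmodule (Fin (n + 1)) (AlgebraicClosure ℚ) d ⊓
        (sat (Ideal.span (Set.range g) ^ e ⊔ I)).restrictScalars (AlgebraicClosure ℚ) :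
          Submodule (AlgebraicClosure ℚ) (MvPolynomial (Fin (n + 1)) (AlgebraicClosure ℚ))) -
      finrank (AlgebraicClosure ℚ) (homogeneousSubmodule (Fin (n + 1)) (AlgebraicClosure ℚ) d ⊓
        I.restrictScalars (AlgebraicClosure ℚ) :
          Submodule (AlgebraicClosure ℚ) (MvPolynomial (Fin (n + 1)) (AlgebraicClosure ℚ))) := by
  refine finrank_classes _ inf_le_left ?_
  rintro P ⟨hP, hPI⟩
  exact ⟨hP, le_sat _ (Submodule.mem_sup_right hPI)⟩

theorem finrank_VM : finrank (AlgebraicClosure ℚ) (VM I d) =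
      finrank (AlgebraicClosure ℚ) (homogeneousSubmodule (Fin (n + 1)) (AlgebraicClosure ℚ) d ⊓
        (sat ((⊤ : Ideal (MvPolynomial (Fin (n + 1)) (AlgebraicClosure ℚ))) ⊔ I)).restrictScalars
          (AlgebraicClosure ℚ) :
          Submodule (AlgebraicClosure ℚ) (MvPolynomial (Fin (n + 1)) (AlgebraicClosure ℚ))) -
      finrank (AlgebraicClosure ℚ) (homogeneousSubmodule (Fin (n + 1)) (AlgebraicClosure ℚ) d ⊓
        I.restrictScalars (AlgebraicClosure ℚ) :
          Submodule (AlgebraicClosure ℚ) (MvPolynomial (Fin (n + 1)) (AlgebraicClosure ℚ))) := by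
  have h1 : (homogeneousSubmodule (Fin (n + 1)) (AlgebraicClosure ℚ) d ⊓
      (sat ((⊤ : Ideal (MvPolynomial (Fin (n + 1)) (AlgebraicClosure ℚ))) ⊔ I)).restrictScalars
        (AlgebraicClosure ℚ) :
        Submodule (AlgebraicClosure ℚ) (MvPolynomial (Fin (n + 1)) (AlgebraicClosure ℚ))) =
      homogeneousSubmodule (Fin (n + 1)) (AlgebraicClosure ℚ) d := by
    refine le_antisymm inf_le_left fun P hP => ⟨hP, ?_⟩
    rw [top_sup_eq]
    exact le_sat _ Submodule.mem_top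
  rw [h1]
  exact finrank_classes _ le_rfl inf_le_left

end Pool.Agent.T9h24.Ft
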